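import Pool.Agent.TH326.C0

set_option autoImplicit false

/-!
Lipschitz functions on `c₀` and finitely supported measures: basic definitions.
-/

namespace Pool.Agent.V8H99.FC0

open Set Filter Topology
open Pool.Agent.TH326.C0 (c0 mk mk_apply tendsto_zero abs_sub_le dist_le norm_le abs_le_norm)

/-- the pairing of a function with a finitely supported measure -/
noncomputable def pr (f : c0 → ℝ) (μ : c0 →₀ ℝ) : ℝ := μ.sum fun x a => a * f x

/-- the total mass -/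
noncomputable def mass (μ : c0 →₀ ℝ) : ℝ := μ.sum fun _ a => |a|

/-- `f` is `L`-Lipschitz -/
def Lip (L : ℝ) (f : c0 → ℝ) : Prop := ∀ x y : c0, |f x - f y| ≤ L * dist x y

/-- `f` is `L`-Lipschitz on `S` -/
def LipOn (L : ℝ) (f : c0 → ℝ) (S : Set c0) : Prop := ∀ x ∈ S, ∀ y ∈ S, |f x - f y| ≤ L * dist x y

lemma mass_nonneg (μ : c0 →₀ ℝ) : 0 ≤ mass μ := Finset.sum_nonneg fun _ _ => abs_nonneg _

lemma pr_add (f g : c0 → ℝ) (μ : c0 →₀ ℝ) : pr (fun x => f x + g x) μ = pr f μ + pr g μ := by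
  unfold pr Finsupp.sum
  rw [← Finset.sum_add_distrib]
  exact Finset.sum_congr rfl fun x _ => by ring

lemma pr_sub (f g : c0 → ℝ) (μ : c0 →₀ ℝ) : pr (fun x => f x - g x) μ = pr f μ - pr g μ := by
  unfold pr Finsupp.sum
  rw [← Finset.sum_sub_distrib]
  exact Finset.sum_congr rfl fun x _ => by ring

lemma pr_smul (c : ℝ) (f : c0 → ℝ) (μ : c0 →₀ ℝ) : pr (fun x => c * f x) μ = c * pr f μ := by
  unfold pr Finsupp.sum
  rw [Finset.mul_sum]
  exact Finset.sum_congr rfl fun x _ => by ring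

lemma pr_sum {ι : Type*} (s : Finset ι) (F : ι → c0 → ℝ) (μ : c0 →₀ ℝ) :
    pr (fun x => ∑ i ∈ s, F i x) μ = ∑ i ∈ s, pr (F i) μ := by
  unfold pr Finsupp.sum
  rw [Finset.sum_comm]
  exact Finset.sum_congr rfl fun x _ => by simp only [Finset.mul_sum]

lemma pr_congr {f g : c0 → ℝ} {μ : c0 →₀ ℝ} (h : ∀ x ∈ μ.support, f x = g x) : pr f μ = pr g μ := by
  unfold pr Finsupp.sum
  exact Finset.sum_congr rfl fun x hx => by simp only [h x hx]

lemma pr_eq_zero {f : c0 → ℝ} {μ : c0 →₀ ℝ} (h : ∀ x ∈ μ.support, f x = 0) : pr f μ = 0 := by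
  rw [pr_congr (g := fun _ => 0) h]
  unfold pr Finsupp.sum
  simp

lemma abs_pr_le {f : c0 → ℝ} {μ : c0 →₀ ℝ} {κ : ℝ} (h : ∀ x ∈ μ.support, |f x| ≤ κ) :
    |pr f μ| ≤ κ * mass μ := by
  unfold pr mass Finsupp.sum
  rw [Finset.mul_sum]
  refine (Finset.abs_sum_le_sum_abs _ _).trans (Finset.sum_le_sum fun x hx => ?_)
  rw [abs_mul, mul_comm κ]
  exact mul_le_mul_of_nonneg_left (h x hx) (abs_nonneg _)

lemma pr_map (f : c0 → ℝ) (ρ : c0 → c0) (μ : c0 →₀ ℝ) :
    pr f (μ.mapDomain ρ) = pr (fun x => f (ρ x)) μ := by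
  unfold pr
  rw [Finsupp.sum_mapDomain_index (by simp) (by intros; ring)]

/-- averages of the measures are small (uniformly) along some numbers of terms -/
def Small (μ : ℕ → c0 →₀ ℝ) : Prop :=
  ∀ c : ℝ, 0 < c → ∃ J : ℕ, 0 < J ∧ ∀ A : Finset ℕ, A.card = J → ∀ f, Lip 1 f →
    ∑ n ∈ A, |pr f (μ n)| ≤ c * J

lemma Lip.of_le {L L' : ℝ} {f : c0 → ℝ} (h : Lip L f) (hL : L ≤ L') : Lip L' f := fun x y =>
  (h x y).trans (mul_le_mul_of_nonneg_right hL dist_nonneg)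

lemma Lip.comp {L : ℝ} {f : c0 → ℝ} (h : Lip L f) (hL : 0 ≤ L) {ρ : c0 → c0}
    (hρ : ∀ x y, dist (ρ x) (ρ y) ≤ dist x y) : Lip L (fun x => f (ρ x)) := fun x y =>
  (h _ _).trans (mul_le_mul_of_nonneg_left (hρ x y) hL)

lemma Small.map {μ : ℕ → c0 →₀ ℝ} (h : Small μ) {ρ : c0 → c0}
    (hρ : ∀ x y, dist (ρ x) (ρ y) ≤ dist x y) : Small fun n => (μ n).mapDomain ρ := by
  intro c hc
  obtain ⟨J, hJ, h1⟩ := h c hc
  refine ⟨J, hJ, fun A hA f hf => ?_⟩
  have := h1 A hA _ (hf.comp zero_le_one hρ)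
  simpa only [pr_map] using this

lemma Small.lip {μ : ℕ → c0 →₀ ℝ} (h : Small μ) {L ε : ℝ} (hL : 0 < L) (hε : 0 < ε) :
    ∃ J : ℕ, 0 < J ∧ ∀ A : Finset ℕ, A.card = J → ∀ f, Lip L f → ¬ ∀ n ∈ A, ε ≤ |pr f (μ n)| := by
  obtain ⟨J, hJ, h1⟩ := h (ε / (2 * L)) (by positivity)
  refine ⟨J, hJ, fun A hA f hf h2 => ?_⟩
  have h3 : Lip 1 fun x => L⁻¹ * f x := fun x y => by
    rw [← mul_sub, abs_mul, abs_of_pos (inv_pos.2 hL), one_mul]
    calc L⁻¹ * |f x - f y| ≤ L⁻¹ * (L * dist x y) :=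
          mul_le_mul_of_nonneg_left (hf x y) (inv_pos.2 hL).le
      _ = dist x y := by field_simp
  have h4 := h1 A hA _ h3
  have h5 : ∑ n ∈ A, L⁻¹ * ε ≤ ∑ n ∈ A, |pr (fun x => L⁻¹ * f x) (μ n)| := by
    refine Finset.sum_le_sum fun n hn => ?_
    rw [pr_smul, abs_mul, abs_of_pos (inv_pos.2 hL)]
    exact mul_le_mul_of_nonneg_left (h2 n hn) (inv_pos.2 hL).le
  rw [Finset.sum_const, hA, nsmul_eq_mul] at h5
  have hJ' : (0 : ℝ) < J := by exact_mod_cast hJ
  have h6 : (J : ℝ) * (L⁻¹ * ε) ≤ ε / (2 * L) * J := h5.trans h4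
  have h7 : ε / (2 * L) * J = (J : ℝ) * (L⁻¹ * ε) / 2 := by field_simp
  rw [h7] at h6
  have : 0 < (J : ℝ) * (L⁻¹ * ε) := by positivity
  linarith

/-! ### Clipping -/

/-- clipping of a real number -/
noncomputable def cl (r t : ℝ) : ℝ := max (-r) (min r t)

lemma cl_lip (r s t : ℝ) : |cl r s - cl r t| ≤ |s - t| := by
  unfold cl
  refine (abs_max_sub_max_le_max _ _ _ _).trans ?_
  rw [sub_self, abs_zero]
  refine max_le (abs_nonneg _) ((abs_min_sub_min_le_max _ _ _ _).trans ?_)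
  rw [sub_self, abs_zero]
  exact max_le (abs_nonneg _) le_rfl

lemma abs_cl_le {r : ℝ} (hr : 0 ≤ r) (t : ℝ) : |cl r t| ≤ r := by
  unfold cl
  exact abs_le.2 ⟨le_max_left _ _, max_le (by linarith) (min_le_left _ _)⟩

lemma cl_eq {r t : ℝ} (h : |t| ≤ r) : cl r t = t := by
  unfold cl
  rw [abs_le] at h
  rw [min_eq_right h.2, max_eq_right h.1]

lemma cl_zero {r : ℝ} (hr : 0 ≤ r) : cl r 0 = 0 := cl_eq (by simpa using hr)

lemma abs_cl_le' {r : ℝ} (hr : 0 ≤ r) (t : ℝ) : |cl r t| ≤ |t| := by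
  have := cl_lip r t 0
  rwa [cl_zero hr, sub_zero, sub_zero] at this

lemma cl_cl {r s : ℝ} (hr : 0 ≤ r) (hs : 0 ≤ s) (t : ℝ) : cl s (cl r t) = cl (min r s) t := by
  unfold cl
  rcases le_total r s with h | h
  · rw [min_eq_left h]
    have h1 : max (-r) (min r t) ≤ s := max_le (by linarith) ((min_le_left _ _).trans h)
    have h2 : -s ≤ max (-r) (min r t) := (neg_le_neg h).trans (le_max_left _ _)
    rw [min_eq_right h1, max_eq_right h2]
  · rw [min_eq_right h]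
    rcases le_total t (-s) with h3 | h3
    · have h4 : max (-r) (min r t) ≤ -s :=
        max_le (by linarith) ((min_le_right _ _).trans h3)
      rw [min_eq_right (h4.trans (by linarith)), max_eq_left h4,
        min_eq_right (h3.trans (by linarith)), max_eq_left h3]
    · rcases le_total t s with h5 | h5
      · rw [min_eq_right (h5.trans h), max_eq_right (by linarith : -r ≤ t)]
      · have h6 : s ≤ max (-r) (min r t) := (le_min h h5).trans (le_max_right _ _)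
        rw [min_eq_left h6, min_eq_left h5]

/-- if clipping moves a number then the number is large -/
lemma lt_of_cl_ne {r t : ℝ} (h : cl r t ≠ t) : r < |t| := by
  by_contra h1
  exact h (cl_eq (not_lt.1 h1))

lemma sub_cl {r t : ℝ} (hr : 0 ≤ r) : |t| - r ≤ |t - cl r t| := by
  have h1 := abs_cl_le hr t
  have h2 := abs_sub_abs_le_abs_sub t (cl r t)
  linarith

/-- clipping of a null sequence by a sequence of nonnegative numbers -/
noncomputable def clip (r : ℕ → ℝ) (x : c0) : c0 :=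
  mk (fun k => cl (|r k|) (x k)) <| by
    refine squeeze_zero_norm (fun k => ?_) (by simpa using (tendsto_zero x).abs)
    rw [Real.norm_eq_abs]
    exact abs_cl_le' (abs_nonneg _) _

lemma clip_apply (r : ℕ → ℝ) (x : c0) (k : ℕ) : clip r x k = cl (|r k|) (x k) := rfl

lemma clip_apply' {r : ℕ → ℝ} (hr : ∀ k, 0 ≤ r k) (x : c0) (k : ℕ) : clip r x k = cl (r k) (x k) := by
  rw [clip_apply, abs_of_nonneg (hr k)]

lemma dist_clip (r : ℕ → ℝ) (x y : c0) : dist (clip r x) (clip r y) ≤ dist x y :=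
  dist_le dist_nonneg fun k => by
    rw [clip_apply, clip_apply]
    exact (cl_lip _ _ _).trans (abs_sub_le x y k)

lemma clip_eq {r : ℕ → ℝ} {x : c0} (h : ∀ k, |x k| ≤ r k) : clip r x = x := by
  ext k
  rw [clip_apply' fun k => (abs_nonneg _).trans (h k)]
  exact cl_eq (h k)

lemma clip_clip {r s : ℕ → ℝ} (hr : ∀ k, 0 ≤ r k) (hs : ∀ k, 0 ≤ s k) (x : c0) :
    clip s (clip r x) = clip (fun k => min (r k) (s k)) x := by
  ext k
  rw [clip_apply' hs, clip_apply' hr, clip_apply' fun k => le_min (hr k) (hs k)]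
  exact cl_cl (hr k) (hs k) _

lemma exists_of_clip_ne {r s : ℕ → ℝ} (x : c0) (h : clip r x ≠ clip s x) :
    ∃ k, cl (|r k|) (x k) ≠ cl (|s k|) (x k) := by
  by_contra h1
  push Not at h1
  exact h (by ext k; rw [clip_apply, clip_apply, h1 k])

lemma c0_ext {x y : c0} (h : ∀ k, x k = y k) : x = y := by
  ext k
  exact h k

end Pool.Agent.V8H99.FC0
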