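import Pool.Agent.V8H99.FC0.Step

set_option autoImplicit false

/-!
The induction, and the main theorem about measures and functions on a compact box.
-/

namespace Pool.Agent.V8H99.FC0

open Set Filter Topology
open Pool.Agent.TH326.C0 (c0 mk mk_apply tendsto_zero abs_sub_le dist_le norm_le abs_le_norm)

variable {r : ℕ → ℝ} {C : ℝ} {μ : ℕ → c0 →₀ ℝ} {f : ℕ → c0 → ℝ}

/-- the state after `J` steps -/
def Inv (U : Ultrafilter ℕ) (r : ℕ → ℝ) (C c₀ : ℝ) (μ : ℕ → c0 →₀ ℝ) (f : ℕ → c0 → ℝ) (J : ℕ) : Prop :=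
  ∃ (A : Finset ℕ) (F ψ : c0 → ℝ) (Λ : ℝ), A.card = J ∧ 0 ≤ Λ ∧ (∀ x ∈ box r, 0 ≤ ψ x) ∧
    (∀ x ∈ box r, ψ x ≤ 1) ∧ LipOn Λ ψ (box r) ∧
    (∀ᶠ m in (U : Filter ℕ), c₀ / 2 * (1 + (1 / 2) ^ J) ≤ pr (fun x => f m x * ψ x) (μ m)) ∧
    (∀ x ∈ box r, lipAt (box r) F x (C + 1 - (1 / 2) ^ J)) ∧
    (∀ x ∈ box r, ψ x ≠ 0 → lipAt (box r) F x (1 - (1 / 2) ^ J)) ∧
    ∀ n ∈ A, c₀ / 4 * (1 + (1 / 2) ^ J) ≤ |pr F (μ n)|

lemma sign_choice' (a b : ℝ) : ∃ σ : ℝ, |σ| = 1 ∧ |b| ≤ |a + σ * b| := by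
  by_cases h : 0 ≤ a * b
  · refine ⟨1, abs_one, ?_⟩
    refine sq_le_sq.1 ?_
    nlinarith [sq_nonneg a]
  · refine ⟨-1, by simp, ?_⟩
    refine sq_le_sq.1 ?_
    nlinarith [sq_nonneg a]

theorem Hyp.inv (h : Hyp r C μ f) (U : Ultrafilter ℕ) (hU : (U : Filter ℕ) ≤ atTop) {c₀ : ℝ}
    (hc₀ : 0 < c₀) (hm : ∀ n, c₀ ≤ pr (f n) (μ n)) (J : ℕ) : Inv U r C c₀ μ f J := by
  have hC := h.Cpos
  induction J with
  | zero =>
    refine ⟨∅, fun _ => 0, fun _ => 1, 0, rfl, le_rfl, fun _ _ => zero_le_one, fun _ _ => le_rfl,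
      fun x _ y _ => by simp, Eventually.of_forall fun m => ?_, fun x hx => ?_, fun x hx _ => ?_,
      fun n hn => absurd hn (Finset.notMem_empty _)⟩
    · have : c₀ / 2 * (1 + (1 / 2) ^ 0) = c₀ := by ring
      rw [this]
      simpa using hm m
    · intro θ hθ
      refine Eventually.of_forall fun y => ?_
      rw [sub_self, abs_zero, pow_zero]
      exact mul_nonneg (by linarith) dist_nonneg
    · intro θ hθ
      refine Eventually.of_forall fun y => ?_
      rw [sub_self, abs_zero, pow_zero]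
      exact mul_nonneg (by linarith) dist_nonneg
  | succ J ih =>
    obtain ⟨A, F, ψ, Λ, hA, hΛ, hψ0, hψ1, hψ, hψm, hF1, hF2, hFA⟩ := ih
    set q : ℝ := (1 / 2) ^ J with hq
    have hq0 : 0 < q := by rw [hq]; positivity
    have hq' : (1 / 2 : ℝ) ^ (J + 1) = q / 2 := by rw [pow_succ, hq]; ring
    rw [Inv, hq']
    set m₀ := ∑ n ∈ A, mass (μ n) with hm₀
    have hm₀0 : 0 ≤ m₀ := Finset.sum_nonneg fun _ _ => mass_nonneg _
    set κ := min (q / (4 * (1 + Λ))) (c₀ * q / 8 / (1 + m₀)) with hκ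
    have hκ0 : 0 < κ := lt_min (by positivity) (by positivity)
    have hκΛ : κ * Λ ≤ q / 4 := by
      calc κ * Λ ≤ q / (4 * (1 + Λ)) * (1 + Λ) :=
            mul_le_mul (min_le_left _ _) (by linarith) hΛ (by positivity)
        _ = q / 4 := by field_simp
    have hκm : ∀ n ∈ A, κ * mass (μ n) ≤ c₀ * q / 8 := fun n hn => by
      have h3 : mass (μ n) ≤ m₀ := Finset.single_le_sum (f := fun w => mass (μ w))
        (fun w _ => mass_nonneg _) hn
      calc κ * mass (μ n) ≤ c₀ * q / 8 / (1 + m₀) * (1 + m₀) :=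
            mul_le_mul (min_le_right _ _) (by linarith) (mass_nonneg _) (by positivity)
        _ = c₀ * q / 8 := by field_simp
    obtain ⟨n, g, χ, Λ', hn, hgκ, hgm, hχ0, hχ1, hΛ', hχ, hgC, hgη, hχm⟩ :=
      h.step U hU hψ0 hψ1 hΛ hψ hψm (η := q / 4) (ε := c₀ * q / 4) (by positivity) (by positivity)
        hκ0 (A.sup id + 1)
    have hnA : n ∉ A := fun h1 => by
      have : n ≤ A.sup id := Finset.le_sup (f := id) h1
      omega
    obtain ⟨σ, hσ, hσb⟩ := sign_choice' (pr F (μ n)) (pr (fun x => g x * ψ x) (μ n))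
    have hprF : ∀ k, pr (fun x => F x + σ * (g x * ψ x)) (μ k) =
        pr F (μ k) + σ * pr (fun x => g x * ψ x) (μ k) := fun k => by
      rw [pr_add, pr_smul]
    have hconst : c₀ / 2 * (1 + q) - c₀ * q / 4 = c₀ / 2 * (1 + q / 2) := by ring
    refine ⟨insert n A, fun x => F x + σ * (g x * ψ x), fun x => ψ x * (1 - χ x), Λ * 1 + 1 * Λ', ?_,
      by positivity, fun x hx => mul_nonneg (hψ0 x hx) (by linarith [hχ1 x hx]), fun x hx => ?_, ?_, ?_,
      fun x hx => ?_, fun x hx hx0 => ?_, fun k hk => ?_⟩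
    · rw [Finset.card_insert_of_notMem hnA, hA]
    · calc ψ x * (1 - χ x) ≤ 1 * 1 := mul_le_mul (hψ1 x hx) (by linarith [hχ0 x hx])
            (by linarith [hχ1 x hx]) zero_le_one
        _ = 1 := one_mul _
    · refine lipOn_mul hψ (fun x hx y hy => ?_) (fun x hx => ?_) (fun x hx => ?_)
      · rw [sub_sub_sub_cancel_left, abs_sub_comm]
        exact hχ x hx y hy
      · rw [abs_of_nonneg (hψ0 x hx)]
        exact hψ1 x hx
      · rw [abs_of_nonneg (by linarith [hχ1 x hx])]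
        linarith [hχ0 x hx]
    · rw [← hconst]
      exact hχm
    · have h1 : lipAt (box r) (fun y => g y * ψ y) x (ψ x * C + κ * Λ) :=
        (hgC x hx).mul hψ0 hψ1 hψ hgκ hx
      by_cases hx0 : ψ x = 0
      · refine ((hF1 x hx).add (h1.sign hσ)).mono ?_
        rw [hx0, zero_mul, zero_add]
        linarith
      · refine ((hF2 x hx hx0).add (h1.sign hσ)).mono ?_
        have : ψ x * C ≤ 1 * C := mul_le_mul_of_nonneg_right (hψ1 x hx) hC.le
        linarith
    · have hx1 : ψ x ≠ 0 := fun h1 => hx0 (by simp [h1])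
      have hx2 : χ x < 1 := lt_of_le_of_ne (hχ1 x hx) fun h1 => hx0 (by simp [h1])
      have h1 : lipAt (box r) (fun y => g y * ψ y) x (ψ x * (q / 4) + κ * Λ) :=
        (hgη x hx hx2).mul hψ0 hψ1 hψ hgκ hx
      refine ((hF2 x hx hx1).add (h1.sign hσ)).mono ?_
      have : ψ x * (q / 4) ≤ 1 * (q / 4) := mul_le_mul_of_nonneg_right (hψ1 x hx) (by positivity)
      linarith
    · rw [hprF]
      rcases Finset.mem_insert.1 hk with rfl | hk
      · refine le_trans ?_ hσb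
        rw [hconst] at hgm
        refine le_trans ?_ (le_trans hgm (le_abs_self _))
        have : 0 < c₀ * (1 + q / 2) := by positivity
        linarith
      · have h1 := hFA k hk
        have h2 : |pr (fun x => g x * ψ x) (μ k)| ≤ κ * mass (μ k) := by
          refine abs_pr_le fun x hx => ?_
          have hx' := h.supp k x hx
          rw [abs_mul, abs_of_nonneg (hψ0 x hx')]
          calc |g x| * ψ x ≤ κ * 1 :=
                mul_le_mul (hgκ x hx') (hψ1 x hx') (hψ0 x hx') hκ0.le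
            _ = κ := mul_one _
        have h3 := hκm k hk
        have h4 := abs_sub_abs_le_abs_sub (pr F (μ k)) (-(σ * pr (fun x => g x * ψ x) (μ k)))
        rw [abs_neg, abs_mul, hσ, one_mul, sub_neg_eq_add] at h4
        have h5 : c₀ / 4 * (1 + q / 2) = c₀ / 4 * (1 + q) - c₀ * q / 8 := by ring
        rw [h5]
        linarith

/-- **main theorem on a compact box** -/
theorem Hyp.false (h : Hyp r C μ f) (hμ : Small μ) {c₀ : ℝ} (hc₀ : 0 < c₀)
    (hm : ∀ n, c₀ ≤ pr (f n) (μ n)) : False := by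
  have hC := h.Cpos
  obtain ⟨J, -, hJ⟩ := hμ.lip (L := C + 1) (ε := c₀ / 4) (by linarith) (by linarith)
  obtain ⟨A, F, ψ, Λ, hA, -, -, -, -, -, hF, -, hFA⟩ :=
    h.inv (hyperfilter ℕ) Nat.hyperfilter_le_atTop hc₀ hm J
  have h1 : LipOn (C + 1) F (box r) := lipOn_of_lipAt (convex_box r) fun x hx => (hF x hx).mono (by
    have : (0 : ℝ) < (1 / 2) ^ J := by positivity
    linarith)
  obtain ⟨G, hG, hGF⟩ := h1.extend (by linarith)
  refine hJ A hA G hG fun n hn => ?_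
  rw [pr_congr fun x hx => hGF x (h.supp n x hx)]
  refine le_trans ?_ (hFA n hn)
  have : 0 < c₀ * (1 / 2) ^ J := by positivity
  linarith

end Pool.Agent.V8H99.FC0
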