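import Pool.Agent.V8H99.FC0.Free

set_option autoImplicit false

/-!
`ℓ_p` (`1 < p < 2`) is not isomorphic to a complemented subspace of the Lipschitz-free space over `c₀`.
-/

namespace Pool.Agent.V8H99.FC0

open Set Filter Topology
open scoped ENNReal
open Pool.Agent.TH326.C0 (c0 mk mk_apply tendsto_zero abs_sub_le dist_le norm_le abs_le_norm)

lemma rpow_small {a b : ℝ} (hab : a < b) {c : ℝ} (hc : 0 < c) :
    ∃ N₀ : ℕ, ∀ N : ℕ, N₀ ≤ N → (N : ℝ) ^ a ≤ c * (N : ℝ) ^ b := by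
  have h1 := (tendsto_rpow_neg_atTop (sub_pos.2 hab)).comp (tendsto_natCast_atTop_atTop (R := ℝ))
  obtain ⟨N₀, hN₀⟩ := eventually_atTop.1 (h1.eventually_le_const hc)
  refine ⟨N₀ + 1, fun N hN => ?_⟩
  have hN' : (0 : ℝ) < N := by
    have : 0 < N := by omega
    exact_mod_cast this
  have h2 := hN₀ N (by omega)
  simp only [Function.comp] at h2
  have h3 : (N : ℝ) ^ a = (N : ℝ) ^ (-(b - a)) * (N : ℝ) ^ b := by
    rw [← Real.rpow_add hN']
    congr 1
    ring
  rw [h3]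
  exact mul_le_mul_of_nonneg_right h2 (by positivity)

section

variable (p : ℝ≥0∞) [Fact (1 ≤ p)]

/-- unit vectors -/
noncomputable def ev (n : ℕ) : lp (fun _ : ℕ => ℝ) p := lp.single p n (1 : ℝ)

/-- coordinate functionals -/
noncomputable def cf (n : ℕ) : lp (fun _ : ℕ => ℝ) p →L[ℝ] ℝ := lp.evalCLM ℝ (fun _ : ℕ => ℝ) p n

omit [Fact (1 ≤ p)] in
lemma ev_apply (n k : ℕ) : (ev p n : ∀ _ : ℕ, ℝ) k = if k = n then 1 else 0 := by
  unfold ev
  rw [lp.single_apply]
  by_cases h : k = n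
  · subst h
    simp
  · rw [Pi.single_eq_of_ne h, if_neg h]

lemma cf_apply (n : ℕ) (z : lp (fun _ : ℕ => ℝ) p) : cf p n z = z n := rfl

lemma norm_ev (n : ℕ) : ‖ev p n‖ = 1 := by
  unfold ev
  have hp : 0 < p := zero_lt_one.trans_le Fact.out
  rw [lp.norm_single hp]
  simp

lemma norm_cf_le (n : ℕ) : ‖cf p n‖ ≤ 1 := by
  refine ContinuousLinearMap.opNorm_le_bound _ zero_le_one fun z => ?_
  rw [one_mul, cf_apply]
  have hp : p ≠ 0 := (zero_lt_one.trans_le Fact.out).ne'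
  exact lp.norm_apply_le_norm hp z n

omit [Fact (1 ≤ p)] in
lemma smul_ev (n : ℕ) (a : ℝ) : a • ev p n = lp.single p n a := by
  unfold ev
  rw [← lp.single_smul, smul_eq_mul, mul_one]

variable {p}

lemma toReal_pos' (hp2 : p < 2) : 0 < p.toReal := by
  have h1 : (1 : ℝ≥0∞) ≤ p := Fact.out
  exact ENNReal.toReal_pos (zero_lt_one.trans_le h1).ne' (hp2.trans ENNReal.ofNat_lt_top).ne

lemma cf_tendsto (hp2 : p < 2) (z : lp (fun _ : ℕ => ℝ) p) :
    Tendsto (fun n => cf p n z) atTop (𝓝 0) := by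
  have h1 := (lp.hasSum_single (hp2.trans ENNReal.ofNat_lt_top).ne z).summable.tendsto_atTop_zero
  have h2 := h1.norm
  rw [norm_zero] at h2
  have hp : 0 < p := zero_lt_one.trans_le Fact.out
  refine squeeze_zero_norm (fun n => ?_) h2
  rw [lp.norm_single hp]
  rfl

lemma norm_sum_ev (hp2 : p < 2) (A : Finset ℕ) (s : ℕ → ℝ) (hs : ∀ i, s i = 1 ∨ s i = -1) :
    ‖∑ n ∈ A, s n • ev p n‖ = (A.card : ℝ) ^ (1 / p.toReal) := by
  have ht := toReal_pos' hp2
  have h1 := lp.norm_sum_single (E := fun _ : ℕ => ℝ) ht s A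
  simp only [← smul_ev] at h1
  have h2 : ∑ i ∈ A, ‖s i‖ ^ p.toReal = (A.card : ℝ) := by
    rw [Finset.sum_congr rfl (g := fun _ => (1 : ℝ)) fun i _ => ?_, Finset.sum_const, nsmul_eq_mul,
      mul_one]
    have : ‖s i‖ = 1 := by rcases hs i with h | h <;> rw [h] <;> simp
    rw [this, Real.one_rpow]
  rw [h2] at h1
  rw [← h1, ← Real.rpow_mul (norm_nonneg _), mul_one_div_cancel ht.ne', Real.rpow_one]

lemma norm_sum_cf (hp2 : p < 2) (A : Finset ℕ) (s : ℕ → ℝ) (hs : ∀ i, s i = 1 ∨ s i = -1) :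
    ‖∑ n ∈ A, s n • cf p n‖ ≤ (A.card : ℝ) ^ (1 - 1 / p.toReal) := by
  have ht := toReal_pos' hp2
  have ht1 : 1 ≤ p.toReal := by
    have h1 : (1 : ℝ≥0∞) ≤ p := Fact.out
    have := ENNReal.toReal_mono (hp2.trans ENNReal.ofNat_lt_top).ne h1
    simpa using this
  refine ContinuousLinearMap.opNorm_le_bound _ (by positivity) fun z => ?_
  have h1 : ‖(∑ n ∈ A, s n • cf p n) z‖ ≤ ∑ n ∈ A, |z n| := by
    rw [sum_apply]
    refine (norm_sum_le _ _).trans (Finset.sum_le_sum fun n _ => ?_)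
    rw [smul_apply, smul_eq_mul, cf_apply, norm_mul]
    have : ‖s n‖ = 1 := by rcases hs n with h | h <;> rw [h] <;> simp
    rw [this, one_mul, Real.norm_eq_abs]
  refine h1.trans ?_
  have h2 := Real.rpow_sum_le_const_mul_sum_rpow A (fun n => z n) ht1
  have h3 : ∑ n ∈ A, |z n| ^ p.toReal ≤ ‖z‖ ^ p.toReal := by
    have := lp.sum_rpow_le_norm_rpow ht z A
    simpa only [Real.norm_eq_abs] using this
  have h4 : (∑ n ∈ A, |z n|) ^ p.toReal ≤
      ((A.card : ℝ) ^ (1 - 1 / p.toReal) * ‖z‖) ^ p.toReal := by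
    rw [Real.mul_rpow (by positivity) (norm_nonneg _), ← Real.rpow_mul (by positivity)]
    have e : (1 - 1 / p.toReal) * p.toReal = p.toReal - 1 := by field_simp
    rw [e]
    exact h2.trans (mul_le_mul_of_nonneg_left h3 (by positivity))
  exact (Real.rpow_le_rpow_iff (Finset.sum_nonneg fun _ _ => abs_nonneg _) (by positivity) ht).1 h4

/-- `ℓ_p` is not complemented in the free space over `c₀` for `1 < p < 2` -/
theorem IsFree.not_lp {E : Type*} [NormedAddCommGroup E] [NormedSpace ℝ E] {δ : c0 → E}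
    (hE : IsFree E δ) (hp1 : 1 < p) (hp2 : p < 2) (i : lp (fun _ : ℕ => ℝ) p →L[ℝ] E)
    (Q : E →L[ℝ] lp (fun _ : ℕ => ℝ) p) : ¬ ∀ z, Q (i z) = z := by
  intro hQ
  have hpt : p ≠ ⊤ := (hp2.trans ENNReal.ofNat_lt_top).ne
  have ht1 : 1 < p.toReal := by
    have := (ENNReal.toReal_lt_toReal ENNReal.one_ne_top hpt).2 hp1
    simpa using this
  have ht2 : p.toReal < 2 := by
    have := (ENNReal.toReal_lt_toReal hpt ENNReal.ofNat_ne_top).2 hp2
    simpa using this
  have hi1 : 1 / p.toReal < 1 := by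
    rw [div_lt_one (by linarith)]; exact ht1
  have hi2 : 1 / 2 < 1 / p.toReal := one_div_lt_one_div_of_lt (by linarith) ht2
  refine hE.not_complemented (ev p) (cf p) (fun n => ?_) (fun n => (norm_ev p n).le)
    (norm_cf_le p) ?_ ?_ (cf_tendsto hp2) i Q hQ
  · rw [cf_apply, ev_apply, if_pos rfl]
  · intro c hc
    obtain ⟨N₀, hN₀⟩ := rpow_small hi1 hc
    refine ⟨N₀, fun A hA s hs => ?_⟩
    rw [norm_sum_ev hp2 A s hs]
    have := hN₀ _ hA
    rwa [Real.rpow_one] at this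
  · intro c hc
    obtain ⟨N₀, hN₀⟩ := rpow_small (a := 1 - 1 / p.toReal) (b := 1 / 2) (by linarith) hc
    refine ⟨N₀, fun A hA s hs => ?_⟩
    refine (norm_sum_cf hp2 A s hs).trans ?_
    rw [Real.sqrt_eq_rpow]
    exact hN₀ _ hA

/-- the unit vectors are a Schauder basis of `ℓ_p` -/
theorem schauder_ev (hp : p ≠ ⊤) (y : lp (fun _ : ℕ => ℝ) p) :
    ∃! a : ℕ → ℝ, Tendsto (fun N => ∑ n ∈ Finset.range N, a n • ev p n) atTop (𝓝 y) := by
  refine ⟨fun n => y n, ?_, fun a ha => ?_⟩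
  · have h1 := (lp.hasSum_single hp y).tendsto_sum_nat
    simp only [smul_ev]
    exact h1
  · funext k
    have h1 : Tendsto (fun N => cf p k (∑ n ∈ Finset.range N, a n • ev p n)) atTop (𝓝 (cf p k y)) :=
      ((cf p k).continuous.tendsto y).comp ha
    have h2 : Tendsto (fun N => cf p k (∑ n ∈ Finset.range N, a n • ev p n)) atTop (𝓝 (a k)) := by
      refine tendsto_const_nhds.congr' ?_
      filter_upwards [eventually_gt_atTop k] with N hN
      rw [map_sum, Finset.sum_eq_single k]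
      · rw [map_smul, cf_apply, ev_apply, if_pos rfl, smul_eq_mul, mul_one]
      · intro n _ hn
        rw [map_smul, cf_apply, ev_apply, if_neg (Ne.symm hn), smul_zero]
      · intro h
        exact absurd (Finset.mem_range.2 hN) h
    exact tendsto_nhds_unique h2 h1

end

end Pool.Agent.V8H99.FC0
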