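import Pool.Agent.V8H99.FC0.Glide

set_option autoImplicit false

/-!
Second reduction: the tails of the points, and the reduction to a compact box.
-/

namespace Pool.Agent.V8H99.FC0

open Set Filter Topology
open Pool.Agent.TH326.C0 (c0 mk mk_apply tendsto_zero abs_sub_le dist_le norm_le abs_le_norm)

/-- the clipping sequence with a threshold -/
noncomputable def thr (R δ : ℝ) (N k : ℕ) : ℝ := if k < N then R else δ

lemma thr_nonneg {R δ : ℝ} (hR : 0 ≤ R) (hδ : 0 ≤ δ) (N k : ℕ) : 0 ≤ thr R δ N k := by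
  unfold thr; split_ifs <;> assumption

lemma exists_tail (s : Finset c0) {δ : ℝ} (hδ : 0 < δ) (N₀ : ℕ) :
    ∃ N ≥ N₀, ∀ x ∈ s, ∀ k ≥ N, |x k| ≤ δ := by
  have h : ∀ᶠ N : ℕ in atTop, ∀ x ∈ s, |x N| ≤ δ := by
    rw [Filter.eventually_all_finset]
    intro x _
    have h1 := (tendsto_zero x).abs
    rw [abs_zero] at h1
    exact h1.eventually_le_const hδ
  obtain ⟨N, hN⟩ := eventually_atTop.1 h
  exact ⟨max N N₀, le_max_right _ _, fun x hx k hk => hN k ((le_max_left _ _).trans hk) x hx⟩

/-- the second reduction: the tails -/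
theorem tail_red {μ : ℕ → c0 →₀ ℝ} (hμ : Small μ) {ε R δ : ℝ} (hε : 0 < ε) (hδ : 0 < δ) (hδR : δ ≤ R)
    (hsupp : ∀ n, ∀ x ∈ (μ n).support, ‖x‖ ≤ R) (N₀ : ℕ) :
    ∃ N ≥ N₀, ∀ n, ∀ g, Lip 1 g → |pr (fun x => g x - g (clip (thr R δ N) x)) (μ n)| ≤ ε := by
  have hR : 0 < R := hδ.trans_le hδR
  by_contra hcon
  push Not at hcon
  refine glide hμ (L := 2 * 1 + 2 * R * (4 / δ)) (by positivity) hε (fun s => {x | ∃ k ≥ s, δ < |x k|})
    (fun s t hst x ⟨k, hk, hx⟩ => ⟨k, hst.trans hk, hx⟩) fun s => ?_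
  obtain ⟨n, g, hg, h1⟩ := hcon (max s N₀) (le_max_right _ _)
  set N := max s N₀ with hN
  obtain ⟨N', hN', h2⟩ := exists_tail (μ n).support (half_pos hδ) N
  have hn1 := thr_nonneg hR.le hδ.le
  have hn2 := thr_nonneg hR.le (half_pos hδ).le
  set h : c0 → ℝ := fun x => g (clip (thr R δ N') x) - g (clip (thr R δ N) x) with hh
  set Ψ : c0 → ℝ := fun x => max 0 (1 - 2 / δ * dist x (clip (thr R (δ / 2) N') x)) with hΨ
  have hΨ1 : ∀ x, |Ψ x| ≤ 1 := fun x => by
    rw [hΨ, abs_le]
    refine ⟨by linarith [le_max_left (0 : ℝ) (1 - 2 / δ * dist x (clip (thr R (δ / 2) N') x))],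
      max_le zero_le_one ?_⟩
    have : 0 ≤ 2 / δ * dist x (clip (thr R (δ / 2) N') x) := by positivity
    linarith
  have hΨ2 : Lip (4 / δ) Ψ := fun x y => by
    rw [hΨ]
    refine (abs_max_sub_max_le_max _ _ _ _).trans ?_
    rw [sub_self, abs_zero]
    refine max_le (by positivity) ?_
    set ρ := clip (thr R (δ / 2) N')
    have e : 1 - 2 / δ * dist x (ρ x) - (1 - 2 / δ * dist y (ρ y)) =
      2 / δ * (dist y (ρ y) - dist x (ρ x)) := by ring
    rw [e, abs_mul, abs_of_pos (by positivity)]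
    have h3 : |dist y (ρ y) - dist x (ρ x)| ≤ 2 * dist x y := by
      have h4 := dist_clip (thr R (δ / 2) N') x y
      have h5 := dist_triangle4 x y (ρ y) (ρ x)
      have h6 := dist_triangle4 y x (ρ x) (ρ y)
      rw [dist_comm (ρ y) (ρ x)] at h5
      rw [dist_comm y x] at h6
      rw [abs_le]
      constructor <;> linarith
    calc 2 / δ * |dist y (ρ y) - dist x (ρ x)| ≤ 2 / δ * (2 * dist x y) :=
          mul_le_mul_of_nonneg_left h3 (by positivity)
      _ = 4 / δ * dist x y := by ring
  have hh1 : ∀ x, |h x| ≤ 2 * R := fun x => by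
    refine (hg _ _).trans ?_
    rw [one_mul]
    refine dist_le (by positivity) fun k => ?_
    rw [clip_apply' (hn1 _), clip_apply' (hn1 _)]
    have h3 : |cl (thr R δ N' k) (x k)| ≤ R := (abs_cl_le (hn1 _ _) _).trans (by
      unfold thr; split_ifs; exacts [le_rfl, hδR])
    have h4 : |cl (thr R δ N k) (x k)| ≤ R := (abs_cl_le (hn1 _ _) _).trans (by
      unfold thr; split_ifs; exacts [le_rfl, hδR])
    have := abs_sub (cl (thr R δ N' k) (x k)) (cl (thr R δ N k) (x k))
    linarith
  refine ⟨n, fun x => h x * Ψ x, N', (le_max_left _ _).trans hN', ?_, ?_, ?_, ?_, ?_⟩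
  · exact lip_mul (lip_sub_comp hg (dist_clip _) (dist_clip _)) hΨ2 hh1 hΨ1
  · intro x hx
    have h3 : h x ≠ 0 := left_ne_zero_of_mul hx
    by_contra h4
    have h4' : ∀ k ≥ s, |x k| ≤ δ := by
      intro k hk
      by_contra h5
      exact h4 ⟨k, hk, not_le.1 h5⟩
    apply h3
    rw [hh]
    simp only
    have e : clip (thr R δ N') x = clip (thr R δ N) x := by
      refine c0_ext fun k => ?_
      rw [clip_apply' (hn1 _), clip_apply' (hn1 _)]
      unfold thr
      rcases lt_or_ge k N with h5 | h5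
      · rw [if_pos h5, if_pos (lt_of_lt_of_le h5 hN')]
      · have h6 := h4' k ((le_max_left _ _).trans h5)
        rw [if_neg (not_lt.2 h5), cl_eq h6]
        split_ifs
        · exact cl_eq (h6.trans hδR)
        · exact cl_eq h6
    rw [e, sub_self]
  · rintro x ⟨k, hk, hx⟩
    have h3 : Ψ x = 0 := by
      rw [hΨ]
      refine max_eq_left ?_
      have h4 : δ / 2 ≤ dist x (clip (thr R (δ / 2) N') x) := by
        refine le_trans ?_ (abs_sub_le x _ k)
        rw [clip_apply' (hn2 _)]
        unfold thr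
        rw [if_neg (not_lt.2 hk)]
        refine le_trans ?_ (sub_cl (half_pos hδ).le)
        linarith
      have h5 : 1 ≤ 2 / δ * dist x (clip (thr R (δ / 2) N') x) := by
        calc (1 : ℝ) = 2 / δ * (δ / 2) := by field_simp
          _ ≤ _ := mul_le_mul_of_nonneg_left h4 (by positivity)
      linarith
    simp only
    rw [h3, mul_zero]
  · refine h1.le.trans (le_of_eq ?_)
    congr 1
    refine pr_congr fun x hx => ?_
    have h3 : clip (thr R (δ / 2) N') x = x := by
      refine clip_eq fun k => ?_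
      unfold thr
      split_ifs with h4
      · exact (abs_le_norm x k).trans (hsupp n x hx)
      · exact h2 x hx k (not_lt.1 h4)
    have h5 : clip (thr R δ N') x = x := by
      refine clip_eq fun k => ?_
      unfold thr
      split_ifs with h4
      · exact (abs_le_norm x k).trans (hsupp n x hx)
      · exact (h2 x hx k (not_lt.1 h4)).trans (by linarith)
    have h4 : Ψ x = 1 := by
      rw [hΨ]
      simp only
      rw [h3, dist_self]
      norm_num
    rw [h4, mul_one, hh]
    simp only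
    rw [h5]
  · rintro x hx ⟨k, hk, h3⟩
    have := h2 x hx k hk
    linarith

lemma lip_continuous {L : ℝ} {g : c0 → ℝ} (hg : Lip L g) : Continuous g := by
  have : LipschitzWith (Real.toNNReal L) g := by
    refine LipschitzWith.of_dist_le_mul fun x y => ?_
    rw [Real.dist_eq]
    refine (hg x y).trans (mul_le_mul_of_nonneg_right (Real.le_coe_toNNReal L) dist_nonneg)
  exact this.continuous

/-- recursive minimum of the thresholds -/
noncomputable def rr (R : ℝ) (D : ℕ → ℝ) (N : ℕ → ℕ) : ℕ → ℕ → ℝ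
  | 0, k => thr R (D 0) (N 0) k
  | j + 1, k => min (rr R D N j k) (thr R (D (j + 1)) (N (j + 1)) k)

lemma rr_pos {R : ℝ} {D : ℕ → ℝ} {N : ℕ → ℕ} (hR : 0 < R) (hD : ∀ j, 0 < D j) (j k : ℕ) :
    0 < rr R D N j k := by
  have h : ∀ i, 0 < thr R (D i) (N i) k := fun i => by
    unfold thr; split_ifs; exacts [hR, hD i]
  induction j with
  | zero => exact h 0
  | succ j ih => exact lt_min ih (h _)

lemma rr_le_R {R : ℝ} {D : ℕ → ℝ} {N : ℕ → ℕ} (hD : ∀ j, D j ≤ R) (j k : ℕ) :
    rr R D N j k ≤ R := by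
  induction j with
  | zero => unfold rr thr; split_ifs; exacts [le_rfl, hD 0]
  | succ j ih => exact (min_le_left _ _).trans ih

lemma rr_le_thr {R : ℝ} {D : ℕ → ℝ} {N : ℕ → ℕ} {i j : ℕ} (k : ℕ) (hij : i ≤ j) :
    rr R D N j k ≤ thr R (D i) (N i) k := by
  induction j, hij using Nat.le_induction with
  | base => cases i with
    | zero => exact le_rfl
    | succ i => exact min_le_right _ _
  | succ j _ ih => exact (min_le_left _ _).trans ih

lemma rr_stable {R : ℝ} {D : ℕ → ℝ} {N : ℕ → ℕ} (hD : ∀ j, D j ≤ R) (hN : ∀ j, j ≤ N j) {j k : ℕ}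
    (h : k ≤ j) : rr R D N j k = rr R D N k k := by
  induction j, h using Nat.le_induction with
  | base => rfl
  | succ j hj ih =>
    have h1 : k < N (j + 1) := lt_of_le_of_lt hj (hN (j + 1))
    show min (rr R D N j k) (thr R (D (j + 1)) (N (j + 1)) k) = _
    unfold thr
    rw [if_pos h1, min_eq_left (rr_le_R hD j k), ih]

/-- **Reduction to a compact box.** -/
theorem compact_red {μ : ℕ → c0 →₀ ℝ} (hμ : Small μ) {ε : ℝ} (hε : 0 < ε) :
    ∃ r : ℕ → ℝ, (∀ k, 0 < r k) ∧ Tendsto r atTop (𝓝 0) ∧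
      ∀ n, ∀ g, Lip 1 g → |pr (fun x => g x - g (clip r x)) (μ n)| ≤ ε := by
  obtain ⟨R₀, hR₀, hR1⟩ := bounded_red hμ (half_pos hε)
  set R : ℝ := (R₀ : ℝ) with hRdef
  have hR : 0 < R := by rw [hRdef]; exact_mod_cast hR₀
  set C₀ : c0 → c0 := clip fun _ => R with hC₀
  set ν : ℕ → c0 →₀ ℝ := fun n => (μ n).mapDomain C₀ with hν
  have hνs : Small ν := hμ.map (dist_clip _)
  have hsupp : ∀ n, ∀ x ∈ (ν n).support, ‖x‖ ≤ R := by
    classical
    intro n x hx
    obtain ⟨y, _, rfl⟩ := Finset.mem_image.1 (Finsupp.mapDomain_support hx)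
    refine norm_le hR.le fun k => ?_
    rw [hC₀, clip_apply' fun _ => hR.le]
    exact abs_cl_le hR.le _
  set D : ℕ → ℝ := fun j => R / (j + 1) with hD
  have hD0 : ∀ j, 0 < D j := fun j => by rw [hD]; positivity
  have hDR : ∀ j, D j ≤ R := fun j => by
    rw [hD]
    refine div_le_self hR.le ?_
    have : (0 : ℝ) ≤ j := by positivity
    linarith
  set e : ℕ → ℝ := fun j => ε / 2 * (1 / 2) ^ (j + 1) with he
  have he0 : ∀ j, 0 < e j := fun j => by rw [he]; positivity
  choose pick hpick1 hpick2 using fun j N₀ => tail_red hνs (he0 j) (hD0 j) (hDR j) hsupp N₀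
  let N : ℕ → ℕ := fun j => Nat.rec (pick 0 0) (fun j m => pick (j + 1) (m + 1)) j
  have hN0 : N 0 = pick 0 0 := rfl
  have hNs : ∀ j, N (j + 1) = pick (j + 1) (N j + 1) := fun j => rfl
  have hNj : ∀ j, j ≤ N j := fun j => by
    induction j with
    | zero => exact Nat.zero_le _
    | succ j ih => rw [hNs]; exact (Nat.succ_le_succ ih).trans (hpick1 _ _)
  have hP : ∀ j n g, Lip 1 g → |pr (fun x => g x - g (clip (thr R (D j) (N j)) x)) (ν n)| ≤ e j := by
    intro j
    cases j with
    | zero => rw [hN0]; exact hpick2 0 0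
    | succ j => rw [hNs]; exact hpick2 _ _
  have hthr : ∀ j k, 0 ≤ thr R (D j) (N j) k := fun j k => thr_nonneg hR.le (hD0 j).le _ _
  have hA : ∀ j n g, Lip 1 g → |pr (fun x => g x - g (clip (rr R D N j) x)) (ν n)| ≤
      ∑ i ∈ Finset.range (j + 1), e i := by
    intro j
    induction j with
    | zero =>
      intro n g hg
      rw [Finset.sum_range_one]
      exact hP 0 n g hg
    | succ j ih =>
      intro n g hg
      set T := clip (thr R (D (j + 1)) (N (j + 1))) with hT
      have e1 : ∀ x, clip (rr R D N (j + 1)) x = T (clip (rr R D N j) x) := fun x => by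
        rw [hT, clip_clip (fun k => (rr_pos hR hD0 j k).le) (hthr _)]
        rfl
      have h1 := hP (j + 1) n g hg
      have h2 := ih n (fun x => g (T x)) (hg.comp zero_le_one (dist_clip _))
      rw [Finset.sum_range_succ]
      have e2 : pr (fun x => g x - g (clip (rr R D N (j + 1)) x)) (ν n) =
          pr (fun x => g (T x) - g (T (clip (rr R D N j) x))) (ν n) + pr (fun x => g x - g (T x)) (ν n) := by
        rw [← pr_add]
        refine pr_congr fun x _ => ?_
        rw [e1]
        ring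
      rw [e2]
      exact (abs_add_le _ _).trans (add_le_add h2 h1)
  have hsum : ∀ j, ∑ i ∈ Finset.range (j + 1), e i ≤ ε / 2 := fun j => by
    rw [he, ← Finset.mul_sum]
    have h1 : ∑ i ∈ Finset.range (j + 1), ((1 : ℝ) / 2) ^ (i + 1) ≤ 1 := by
      have h2 : ∀ m : ℕ, ∑ i ∈ Finset.range m, ((1 : ℝ) / 2) ^ (i + 1) = 1 - (1 / 2) ^ m := by
        intro m
        induction m with
        | zero => simp
        | succ m ih => rw [Finset.sum_range_succ, ih]; ring
      rw [h2]
      have : (0 : ℝ) < (1 / 2) ^ (j + 1) := by positivity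
      linarith
    nlinarith
  refine ⟨fun k => rr R D N k k, fun k => rr_pos hR hD0 k k, ?_, fun n g hg => ?_⟩
  · rw [Metric.tendsto_atTop]
    intro θ hθ
    obtain ⟨i, hi⟩ := exists_nat_gt (R / θ)
    refine ⟨max (N i) i, fun k hk => ?_⟩
    rw [Real.dist_eq, sub_zero, abs_of_pos (rr_pos hR hD0 k k)]
    refine lt_of_le_of_lt (rr_le_thr (i := i) k ((le_max_right _ _).trans hk)) ?_
    unfold thr
    rw [if_neg (not_lt.2 ((le_max_left _ _).trans hk)), hD]
    simp only
    rw [div_lt_iff₀ (by positivity)]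
    rw [div_lt_iff₀ hθ] at hi
    nlinarith
  · set r : ℕ → ℝ := fun k => rr R D N k k with hr
    have hr0 : ∀ k, 0 ≤ r k := fun k => (rr_pos hR hD0 k k).le
    have hB : |pr (fun x => g x - g (clip r x)) (ν n)| ≤ ε / 2 := by
      have hlim : ∀ x : c0, Tendsto (fun j => g (clip (rr R D N j) x)) atTop (𝓝 (g (clip r x))) := by
        intro x
        refine ((lip_continuous hg).tendsto _).comp ?_
        rw [Metric.tendsto_atTop]
        intro θ hθ
        have h1 := (tendsto_zero x).abs
        rw [abs_zero] at h1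
        obtain ⟨m, hm⟩ := eventually_atTop.1 (h1.eventually_le_const (show 0 < θ / 3 by linarith))
        refine ⟨m, fun j hj => ?_⟩
        refine lt_of_le_of_lt (dist_le (C := θ / 3 + θ / 3) (by positivity) fun k => ?_) (by linarith)
        rw [clip_apply' fun k => (rr_pos hR hD0 j k).le, clip_apply' hr0]
        rcases le_or_gt k j with hkj | hkj
        · rw [rr_stable hDR hNj hkj, sub_self, abs_zero]
          positivity
        · have h2 := hm k (hj.trans hkj.le)
          have h3 := abs_cl_le' (rr_pos hR hD0 j k (N := N)).le (x k)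
          have h4 := abs_cl_le' (hr0 k) (x k)
          refine (abs_sub _ _).trans ?_
          linarith
      have hlim2 : Tendsto (fun j => pr (fun x => g x - g (clip (rr R D N j) x)) (ν n)) atTop
          (𝓝 (pr (fun x => g x - g (clip r x)) (ν n))) := by
        unfold pr Finsupp.sum
        refine tendsto_finsetSum _ fun x _ => ?_
        exact tendsto_const_nhds.mul (tendsto_const_nhds.sub (hlim x))
      exact le_of_tendsto hlim2.abs (Eventually.of_forall fun j => (hA j n g hg).trans (hsum j))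
    have e1 : ∀ x, clip r (C₀ x) = clip r x := fun x => by
      rw [hC₀, clip_clip (fun _ => hR.le) hr0]
      congr 1
      funext k
      exact min_eq_right (rr_le_R hDR k k)
    have e2 : pr (fun x => g x - g (clip r x)) (μ n) =
        pr (fun x => g x - g (C₀ x)) (μ n) + pr (fun x => g x - g (clip r x)) (ν n) := by
      rw [hν, pr_map, ← pr_add]
      refine pr_congr fun x _ => ?_
      rw [e1]
      ring
    rw [e2]
    have := hR1 n g hg
    have h3 := abs_add_le (pr (fun x => g x - g (C₀ x)) (μ n)) (pr (fun x => g x - g (clip r x)) (ν n))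
    linarith

end Pool.Agent.V8H99.FC0
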