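import Pool.Agent.V8H99.FC0.Core
import Pool.Agent.V8H99.FC0.Tight

set_option autoImplicit false

/-!
Complemented subspaces of the Lipschitz-free space over `c₀`.
-/

namespace Pool.Agent.V8H99.FC0

open Set Filter Topology
open Pool.Agent.TH326.C0 (c0 mk mk_apply tendsto_zero abs_sub_le dist_le norm_le abs_le_norm)

/-- **main theorem about measures and functions on `c₀`** -/
theorem no_measures {C c₀ : ℝ} {μ : ℕ → c0 →₀ ℝ} {f : ℕ → c0 → ℝ} (hC : 0 < C) (hμ : Small μ)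
    (bdd : ∀ n, ∀ g, Lip 1 g → |pr g (μ n)| ≤ C) (lip : ∀ n, Lip C (f n))
    (sums : ∀ c : ℝ, 0 < c → ∃ N₁ : ℕ, 1 ≤ N₁ ∧ ∀ A : Finset ℕ, N₁ ≤ A.card → ∀ s : ℕ → ℝ,
      (∀ i, s i = 1 ∨ s i = -1) → Lip (c * √(A.card : ℝ)) fun x => ∑ w ∈ A, s w * f w x)
    (lim : ∀ x, Tendsto (fun n => f n x) atTop (𝓝 0)) (hc₀ : 0 < c₀)
    (hm : ∀ n, c₀ ≤ pr (f n) (μ n)) : False := by
  obtain ⟨r, hr, hr0, hrμ⟩ := compact_red hμ (ε := c₀ / (2 * C)) (by positivity)
  have h : Hyp r C (fun n => (μ n).mapDomain (clip r)) f :=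
    { rpos := hr
      rlim := hr0
      Cpos := hC
      supp := fun n x hx => by
        classical
        obtain ⟨y, -, rfl⟩ := Finset.mem_image.1 (Finsupp.mapDomain_support hx)
        exact clip_mem_box (fun k => (hr k).le) y
      bdd := fun n g hg => by
        rw [pr_map]
        exact bdd n _ (hg.comp zero_le_one (dist_clip r))
      lip := lip
      sums := sums
      lim := lim }
  refine h.false (hμ.map (dist_clip r)) (c₀ := c₀ / 2) (by linarith) fun n => ?_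
  rw [pr_map]
  have h1 : Lip 1 fun x => C⁻¹ * f n x := fun x y => by
    rw [← mul_sub, abs_mul, abs_of_pos (inv_pos.2 hC), one_mul]
    calc C⁻¹ * |f n x - f n y| ≤ C⁻¹ * (C * dist x y) :=
          mul_le_mul_of_nonneg_left (lip n x y) (inv_pos.2 hC).le
      _ = dist x y := by field_simp
  have h2 := hrμ n _ h1
  have h3 : (fun x => C⁻¹ * f n x - C⁻¹ * f n (clip r x)) =
      fun x => C⁻¹ * (f n x - f n (clip r x)) := by funext x; ring
  rw [h3, pr_smul, pr_sub, abs_mul, abs_of_pos (inv_pos.2 hC), inv_mul_le_iff₀ hC] at h2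
  have h4 : C * (c₀ / (2 * C)) = c₀ / 2 := by field_simp
  rw [h4] at h2
  have h5 := (abs_le.1 h2).2
  have h6 := hm n
  linarith

/-- `E` is the Lipschitz-free space over `c₀`, with evaluations `δ` -/
structure IsFree (E : Type*) [NormedAddCommGroup E] [NormedSpace ℝ E] (δ : c0 → E) : Prop where
  zero : δ 0 = 0
  lip : LipschitzWith 1 δ
  dense : Dense ((Submodule.span ℝ (Set.range δ) : Submodule ℝ E) : Set E)
  ext : ∀ (K : NNReal) (f : c0 → ℝ), LipschitzWith K f → f 0 = 0 →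
    ∃ φ : E →L[ℝ] ℝ, ‖φ‖ ≤ (K : ℝ) ∧ ∀ x, φ (δ x) = f x

/-- adjusting the total mass -/
noncomputable def adj (ν : c0 →₀ ℝ) : c0 →₀ ℝ := ν - Finsupp.single 0 (ν.sum fun _ a => a)

lemma pr_adj (g : c0 → ℝ) (ν : c0 →₀ ℝ) : pr g (adj ν) = pr (fun x => g x - g 0) ν := by
  unfold pr adj
  rw [Finsupp.sum_sub_index (by intros; ring), Finsupp.sum_single_index (by ring)]
  unfold Finsupp.sum
  rw [Finset.sum_mul, ← Finset.sum_sub_distrib]
  exact Finset.sum_congr rfl fun x _ => by ring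

section

variable {E : Type*} [NormedAddCommGroup E] [NormedSpace ℝ E] {δ : c0 → E}

lemma map_lc (φ : E →L[ℝ] ℝ) (ν : c0 →₀ ℝ) :
    φ (Finsupp.linearCombination ℝ δ ν) = pr (fun x => φ (δ x)) ν := by
  rw [Finsupp.linearCombination_apply]
  unfold pr Finsupp.sum
  rw [map_sum]
  exact Finset.sum_congr rfl fun x _ => by rw [map_smul, smul_eq_mul]

lemma IsFree.exists_functional (hE : IsFree E δ) {g : c0 → ℝ} (hg : Lip 1 g) :
    ∃ φ : E →L[ℝ] ℝ, ‖φ‖ ≤ 1 ∧ ∀ ν, pr g (adj ν) = φ (Finsupp.linearCombination ℝ δ ν) := by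
  obtain ⟨φ, hφ, h⟩ := hE.ext 1 (fun x => g x - g 0) (LipschitzWith.of_dist_le_mul fun x y => by
    rw [Real.dist_eq, sub_sub_sub_cancel_right]
    exact hg x y) (sub_self _)
  refine ⟨φ, hφ, fun ν => ?_⟩
  rw [map_lc, pr_adj]
  exact pr_congr fun x _ => (h x).symm

lemma IsFree.exists_approx (hE : IsFree E δ) (z : E) {ε : ℝ} (hε : 0 < ε) :
    ∃ ν : c0 →₀ ℝ, ‖z - Finsupp.linearCombination ℝ δ ν‖ ≤ ε := by
  obtain ⟨y, hy, hy2⟩ := hE.dense.exists_dist_lt z hε
  obtain ⟨ν, hν⟩ := (Finsupp.mem_span_range_iff_exists_finsupp (R := ℝ) (v := δ)).1 hy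
  refine ⟨ν, ?_⟩
  rw [Finsupp.linearCombination_apply, hν, ← dist_eq_norm]
  exact hy2.le

lemma sum_half_le (A : Finset ℕ) : ∑ n ∈ A, (1 / 2 : ℝ) ^ n ≤ 2 := by
  have h : A ⊆ Finset.range (A.sup id + 1) := fun n hn => by
    have : n ≤ A.sup id := Finset.le_sup (f := id) hn
    exact Finset.mem_range.2 (by omega)
  exact (Finset.sum_le_sum_of_subset_of_nonneg h fun _ _ _ => by positivity).trans
    (sum_geometric_two_le _)

/-- a space with a basis `e` such that `‖∑_{n ∈ A} ± e n‖ = o(|A|)` and `‖∑_{n ∈ A} ± e' n‖ = o(√|A|)` for the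
coordinate functionals is not isomorphic to a complemented subspace of the Lipschitz-free space over `c₀` -/
theorem IsFree.not_complemented (hE : IsFree E δ) {X : Type*} [NormedAddCommGroup X] [NormedSpace ℝ X]
    (e : ℕ → X) (e' : ℕ → X →L[ℝ] ℝ) (h1 : ∀ n, e' n (e n) = 1) (hb : ∀ n, ‖e n‖ ≤ 1)
    (hb' : ∀ n, ‖e' n‖ ≤ 1)
    (hs : ∀ c : ℝ, 0 < c → ∃ J₀ : ℕ, ∀ A : Finset ℕ, J₀ ≤ A.card → ∀ s : ℕ → ℝ,
      (∀ i, s i = 1 ∨ s i = -1) → ‖∑ n ∈ A, s n • e n‖ ≤ c * A.card)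
    (hs' : ∀ c : ℝ, 0 < c → ∃ N₁ : ℕ, ∀ A : Finset ℕ, N₁ ≤ A.card → ∀ s : ℕ → ℝ,
      (∀ i, s i = 1 ∨ s i = -1) → ‖∑ n ∈ A, s n • e' n‖ ≤ c * √(A.card : ℝ))
    (hl : ∀ z, Tendsto (fun n => e' n z) atTop (𝓝 0))
    (i : X →L[ℝ] E) (Q : E →L[ℝ] X) (hQ : ∀ z, Q (i z) = z) : False := by
  set θ : ℝ := 1 / (2 * (1 + ‖Q‖)) with hθ
  have hQ0 := norm_nonneg Q
  have hi0 := norm_nonneg i
  have hθ0 : 0 < θ := by rw [hθ]; positivity
  have hθQ : ‖Q‖ * θ ≤ 1 / 2 := by
    have : (1 + ‖Q‖) * θ = 1 / 2 := by rw [hθ]; field_simp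
    nlinarith
  choose ν hν using fun n => hE.exists_approx (i (e n)) (ε := θ * (1 / 2) ^ n) (by positivity)
  have hν' : ∀ n, ‖i (e n) - Finsupp.linearCombination ℝ δ (ν n)‖ ≤ θ := fun n =>
    (hν n).trans (mul_le_of_le_one_right hθ0.le (pow_le_one₀ (by norm_num) (by norm_num)))
  set C : ℝ := 1 + ‖Q‖ + ‖i‖ + θ with hCdef
  have hC : 0 < C := by rw [hCdef]; positivity
  have hδ : ∀ x y, ‖δ x - δ y‖ ≤ dist x y := fun x y => by
    have := hE.lip.dist_le_mul x y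
    rwa [NNReal.coe_one, one_mul, dist_eq_norm] at this
  refine no_measures (C := C) (c₀ := 1 / 2) (μ := fun n => adj (ν n))
    (f := fun n x => e' n (Q (δ x))) hC ?_ ?_ ?_ ?_ ?_ (by norm_num) ?_
  · -- averages
    intro c hc
    obtain ⟨J₀, hJ₀⟩ := hs (c / (2 * (1 + ‖i‖))) (by positivity)
    obtain ⟨J₁, hJ₁⟩ := exists_nat_ge (4 * θ / c)
    refine ⟨max J₀ J₁ + 1, Nat.succ_pos _, fun A hA g hg => ?_⟩
    obtain ⟨φ, hφ, hφ1⟩ := hE.exists_functional hg
    obtain ⟨s, hs1, hs2⟩ := exists_signs A fun n => pr g (adj (ν n))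
    rw [hs2]
    simp only [hφ1]
    have e1 : ∑ w ∈ A, s w * φ (Finsupp.linearCombination ℝ δ (ν w)) =
        φ (i (∑ w ∈ A, s w • e w)) -
          ∑ w ∈ A, s w * φ (i (e w) - Finsupp.linearCombination ℝ δ (ν w)) := by
      rw [map_sum, map_sum, ← Finset.sum_sub_distrib]
      refine Finset.sum_congr rfl fun w _ => ?_
      rw [map_smul, map_smul, smul_eq_mul, map_sub]
      ring
    have e2 : |φ (i (∑ w ∈ A, s w • e w))| ≤ c / 2 * A.card := by
      have h2 : ‖φ (i (∑ w ∈ A, s w • e w))‖ ≤ ‖φ‖ * (‖i‖ * ‖∑ w ∈ A, s w • e w‖) :=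
        (φ.le_opNorm _).trans (mul_le_mul_of_nonneg_left (i.le_opNorm _) (norm_nonneg _))
      rw [Real.norm_eq_abs] at h2
      refine h2.trans ?_
      have h3 := hJ₀ A (by rw [hA]; exact (le_max_left _ _).trans (Nat.le_succ _)) s hs1
      calc ‖φ‖ * (‖i‖ * ‖∑ w ∈ A, s w • e w‖)
          ≤ 1 * ((1 + ‖i‖) * (c / (2 * (1 + ‖i‖)) * A.card)) := by
            refine mul_le_mul hφ ?_ (by positivity) zero_le_one
            exact mul_le_mul (by linarith) h3 (norm_nonneg _) (by positivity)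
        _ = c / 2 * A.card := by field_simp
    have e3 : |∑ w ∈ A, s w * φ (i (e w) - Finsupp.linearCombination ℝ δ (ν w))| ≤ 2 * θ := by
      refine (Finset.abs_sum_le_sum_abs _ _).trans ?_
      have h2 : ∀ w ∈ A, |s w * φ (i (e w) - Finsupp.linearCombination ℝ δ (ν w))| ≤
          θ * (1 / 2) ^ w := fun w _ => by
        have : |s w| = 1 := by rcases hs1 w with h | h <;> rw [h] <;> simp
        rw [abs_mul, this, one_mul, ← Real.norm_eq_abs]
        exact (φ.le_opNorm _).trans ((mul_le_of_le_one_left (norm_nonneg _) hφ).trans (hν w))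
      refine (Finset.sum_le_sum h2).trans ?_
      rw [← Finset.mul_sum]
      have := sum_half_le A
      nlinarith
    have e4 : 2 * θ ≤ c / 2 * A.card := by
      rw [div_le_iff₀ hc] at hJ₁
      have h2 : (J₁ : ℝ) ≤ A.card := by
        rw [hA]
        exact_mod_cast (le_max_right J₀ J₁).trans (Nat.le_succ _)
      nlinarith
    rw [e1, ← hA]
    have e5 := (abs_le.1 e2).2
    have e6 := (abs_le.1 e3).1
    linarith
  · -- bounded
    intro n g hg
    obtain ⟨φ, hφ, hφ1⟩ := hE.exists_functional hg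
    rw [hφ1, ← Real.norm_eq_abs]
    refine (φ.le_opNorm _).trans ((mul_le_of_le_one_left (norm_nonneg _) hφ).trans ?_)
    have h2 : ‖i (e n)‖ ≤ ‖i‖ := (i.le_opNorm _).trans (mul_le_of_le_one_right hi0 (hb n))
    have h3 := norm_sub_norm_le (Finsupp.linearCombination ℝ δ (ν n)) (i (e n))
    have h4 := hν' n
    rw [norm_sub_rev] at h4
    rw [hCdef]
    linarith
  · -- Lipschitz
    intro n x y
    rw [← map_sub, ← map_sub, ← Real.norm_eq_abs]
    refine ((e' n).le_opNorm _).trans ?_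
    calc ‖e' n‖ * ‖Q (δ x - δ y)‖ ≤ 1 * (‖Q‖ * dist x y) := by
          refine mul_le_mul (hb' n) ?_ (norm_nonneg _) zero_le_one
          exact (Q.le_opNorm _).trans (mul_le_mul_of_nonneg_left (hδ x y) hQ0)
      _ = ‖Q‖ * dist x y := one_mul _
      _ ≤ C * dist x y := mul_le_mul_of_nonneg_right (by rw [hCdef]; linarith) dist_nonneg
  · -- sums
    intro c hc
    obtain ⟨N₁, hN₁⟩ := hs' (c / (1 + ‖Q‖)) (by positivity)
    refine ⟨N₁ + 1, by omega, fun A hA s hs x y => ?_⟩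
    have e1 : ∑ w ∈ A, s w * e' w (Q (δ x)) - ∑ w ∈ A, s w * e' w (Q (δ y)) =
        (∑ w ∈ A, s w • e' w) (Q (δ x - δ y)) := by
      rw [sum_apply, ← Finset.sum_sub_distrib]
      refine Finset.sum_congr rfl fun w _ => ?_
      rw [smul_apply, map_sub, map_sub, smul_eq_mul]
      ring
    simp only
    rw [e1, ← Real.norm_eq_abs]
    refine ((∑ w ∈ A, s w • e' w).le_opNorm _).trans ?_
    calc ‖∑ w ∈ A, s w • e' w‖ * ‖Q (δ x - δ y)‖
        ≤ (c / (1 + ‖Q‖) * √(A.card : ℝ)) * ((1 + ‖Q‖) * dist x y) := by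
          refine mul_le_mul (hN₁ A (by omega) s hs) ?_ (norm_nonneg _) (by positivity)
          refine (Q.le_opNorm _).trans ?_
          exact mul_le_mul (by linarith) (hδ x y) (norm_nonneg _) (by positivity)
      _ = c * √(A.card : ℝ) * dist x y := by field_simp
  · exact fun x => hl _
  · intro n
    have e1 : pr (fun x => e' n (Q (δ x))) (adj (ν n)) =
        (e' n ∘L Q) (Finsupp.linearCombination ℝ δ (ν n)) := by
      rw [map_lc, pr_adj, hE.zero]
      simp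
    rw [e1]
    have e2 : (e' n ∘L Q) (Finsupp.linearCombination ℝ δ (ν n)) =
        1 - e' n (Q (i (e n) - Finsupp.linearCombination ℝ δ (ν n))) := by
      rw [map_sub, map_sub, hQ, h1]
      simp
    rw [e2]
    have e3 : |e' n (Q (i (e n) - Finsupp.linearCombination ℝ δ (ν n)))| ≤ 1 / 2 := by
      rw [← Real.norm_eq_abs]
      refine ((e' n).le_opNorm _).trans ?_
      calc ‖e' n‖ * ‖Q (i (e n) - Finsupp.linearCombination ℝ δ (ν n))‖
          ≤ 1 * (‖Q‖ * θ) := by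
            refine mul_le_mul (hb' n) ?_ (norm_nonneg _) zero_le_one
            exact (Q.le_opNorm _).trans (mul_le_mul_of_nonneg_left (hν' n) hQ0)
        _ ≤ 1 / 2 := by rw [one_mul]; exact hθQ
    have := (abs_le.1 e3).2
    linarith

end

end Pool.Agent.V8H99.FC0
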