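import Pool.Agent.V8H99.FC0.Base

set_option autoImplicit false

/-!
A gliding hump argument: sequences of measures with small averages are concentrated on a compact box.
-/

namespace Pool.Agent.V8H99.FC0

open Set Filter Topology
open Pool.Agent.TH326.C0 (c0 mk mk_apply tendsto_zero abs_sub_le dist_le norm_le abs_le_norm)

lemma sign_choice (a b : ℝ) : ∃ σ : ℝ, (σ = 1 ∨ σ = -1) ∧ |b| ≤ |a + σ * b| := by
  rcases le_total 0 a with ha | ha <;> rcases le_total 0 b with hb | hb
  · refine ⟨1, Or.inl rfl, ?_⟩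
    rw [one_mul, abs_of_nonneg hb, abs_of_nonneg (by linarith)]
    linarith
  · refine ⟨-1, Or.inr rfl, ?_⟩
    rw [abs_of_nonpos hb, abs_of_nonneg (by linarith)]
    linarith
  · refine ⟨-1, Or.inr rfl, ?_⟩
    rw [abs_of_nonneg hb, abs_of_nonpos (by linarith)]
    linarith
  · refine ⟨1, Or.inl rfl, ?_⟩
    rw [one_mul, abs_of_nonpos hb, abs_of_nonpos (by linarith)]
    linarith

/-- disjointly supported Lipschitz functions contradict smallness of averages -/
theorem contra {μ : ℕ → c0 →₀ ℝ} (hμ : Small μ) {L ε : ℝ} (hL : 0 < L) (hε : 0 < ε)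
    (n : ℕ → ℕ) (φ : ℕ → c0 → ℝ) (hn : Function.Injective n) (hlip : ∀ j, Lip L (φ j))
    (hdis : ∀ i j x, φ i x ≠ 0 → φ j x ≠ 0 → i = j) (hbig : ∀ j, ε ≤ |pr (φ j) (μ (n j))|)
    (hfut : ∀ i j, i < j → ∀ x ∈ (μ (n i)).support, φ j x = 0) : False := by
  obtain ⟨J, hJ, h1⟩ := hμ.lip (L := 2 * L) (by linarith) hε
  have key : ∀ m : ℕ, ∃ σ : ℕ → ℝ, (∀ i, σ i = 1 ∨ σ i = -1) ∧
      ∀ j < m, ε ≤ |pr (fun x => ∑ i ∈ Finset.range m, σ i * φ i x) (μ (n j))| := by
    intro m
    induction m with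
    | zero => exact ⟨fun _ => 1, fun _ => Or.inl rfl, fun j hj => absurd hj (Nat.not_lt_zero _)⟩
    | succ m ih =>
      obtain ⟨σ, hσ, h2⟩ := ih
      obtain ⟨τ, hτ, h3⟩ := sign_choice
        (pr (fun x => ∑ i ∈ Finset.range m, σ i * φ i x) (μ (n m))) (pr (φ m) (μ (n m)))
      refine ⟨Function.update σ m τ, fun i => ?_, fun j hj => ?_⟩
      · rcases eq_or_ne i m with rfl | h
        · rw [Function.update_self]; exact hτ
        · rw [Function.update_of_ne h]; exact hσ i
      · have e : ∀ x, ∑ i ∈ Finset.range (m + 1), Function.update σ m τ i * φ i x =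
            (∑ i ∈ Finset.range m, σ i * φ i x) + τ * φ m x := fun x => by
          rw [Finset.sum_range_succ, Function.update_self]
          congr 1
          refine Finset.sum_congr rfl fun i hi => ?_
          rw [Function.update_of_ne (Finset.mem_range.1 hi).ne]
        simp only [e]
        rw [pr_add, pr_smul]
        rcases Nat.lt_succ_iff_lt_or_eq.1 hj with h | h
        · rw [pr_eq_zero (hfut j m h), mul_zero, add_zero]
          exact h2 j h
        · subst h
          exact (hbig j).trans h3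
  obtain ⟨σ, hσ, h2⟩ := key J
  have hσ1 : ∀ i, |σ i| = 1 := fun i => by rcases hσ i with h | h <;> rw [h] <;> simp
  refine h1 ((Finset.range J).image n) ?_ (fun x => ∑ i ∈ Finset.range J, σ i * φ i x) ?_ ?_
  · rw [Finset.card_image_of_injective _ hn, Finset.card_range]
  · intro x y
    rw [← Finset.sum_sub_distrib]
    have h3 : ∀ i, |σ i * φ i x - σ i * φ i y| ≤
        (if φ i x ≠ 0 then L * dist x y else 0) + (if φ i y ≠ 0 then L * dist x y else 0) := by
      intro i
      have hd : 0 ≤ L * dist x y := by positivity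
      rw [← mul_sub, abs_mul, hσ1, one_mul]
      by_cases hx : φ i x = 0
      · by_cases hy : φ i y = 0
        · simp [hx, hy]
        · rw [if_neg (by simpa using hx), if_pos hy, zero_add]
          exact hlip i x y
      · rw [if_pos hx]
        have := hlip i x y
        split_ifs <;> linarith
    have h4 : ∀ z : c0, ∑ i ∈ Finset.range J, (if φ i z ≠ 0 then L * dist x y else 0) ≤ L * dist x y := by
      intro z
      rw [← Finset.sum_filter, Finset.sum_const, nsmul_eq_mul]
      have h5 : (Finset.filter (fun i => φ i z ≠ 0) (Finset.range J)).card ≤ 1 :=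
        Finset.card_le_one.2 fun i hi j hj =>
          hdis i j z (Finset.mem_filter.1 hi).2 (Finset.mem_filter.1 hj).2
      have h6 : ((Finset.filter (fun i => φ i z ≠ 0) (Finset.range J)).card : ℝ) ≤ 1 := by
        exact_mod_cast h5
      have hd : 0 ≤ L * dist x y := by positivity
      nlinarith
    refine (Finset.abs_sum_le_sum_abs _ _).trans ((Finset.sum_le_sum fun i _ => h3 i).trans ?_)
    rw [Finset.sum_add_distrib]
    have := h4 x
    have := h4 y
    linarith
  · intro m hm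
    obtain ⟨j, hj, rfl⟩ := Finset.mem_image.1 hm
    exact h2 j (Finset.mem_range.1 hj)

/-- the gliding hump -/
theorem glide {μ : ℕ → c0 →₀ ℝ} (hμ : Small μ) {L ε : ℝ} (hL : 0 < L) (hε : 0 < ε)
    (W : ℕ → Set c0) (hW : ∀ s t, s ≤ t → W t ⊆ W s)
    (h : ∀ s : ℕ, ∃ (n : ℕ) (φ : c0 → ℝ) (s' : ℕ), s ≤ s' ∧ Lip L φ ∧ (∀ x, φ x ≠ 0 → x ∈ W s) ∧
      (∀ x ∈ W s', φ x = 0) ∧ ε ≤ |pr φ (μ n)| ∧ ∀ x ∈ (μ n).support, x ∉ W s') : False := by
  choose N Φ S h1 h2 h3 h4 h5 h6 using h
  -- the states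
  let st : ℕ → ℕ := fun j => Nat.rec 0 (fun _ s => S s) j
  have st_succ : ∀ j, st (j + 1) = S (st j) := fun j => rfl
  have hmono : Monotone st := monotone_nat_of_le_succ fun j => by rw [st_succ]; exact h1 _
  have hfut : ∀ i j, i < j → ∀ x, x ∉ W (S (st i)) → Φ (st j) x = 0 := by
    intro i j hij x hx
    by_contra h7
    have h8 := h3 (st j) x h7
    refine hx (hW _ _ ?_ h8)
    rw [← st_succ]
    exact hmono hij
  refine contra hμ hL hε (fun j => N (st j)) (fun j => Φ (st j)) ?_ (fun j => h2 _) ?_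
    (fun j => h5 _) (fun i j hij x hx => hfut i j hij x (h6 _ x hx))
  · intro i j hij
    by_contra hne
    wlog hlt : i < j generalizing i j
    · exact this hij.symm (Ne.symm hne) (lt_of_le_of_ne (not_lt.1 hlt) (Ne.symm hne))
    have hij' : N (st i) = N (st j) := hij
    have h7 : pr (Φ (st j)) (μ (N (st j))) = 0 := by
      refine pr_eq_zero fun x hx => hfut i j hlt x ?_
      rw [← hij'] at hx
      exact h6 _ x hx
    have h8 := h5 (st j)
    rw [h7, abs_zero] at h8
    linarith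
  · intro i j x hi hj
    by_contra hne
    wlog hlt : i < j generalizing i j
    · exact this j i hj hi (Ne.symm hne) (lt_of_le_of_ne (not_lt.1 hlt) (Ne.symm hne))
    have h7 := h3 (st j) x hj
    have h8 : x ∈ W (S (st i)) := hW _ _ (by rw [← st_succ]; exact hmono hlt) h7
    exact hi (h4 _ x h8)

lemma lip_mul {A B a b : ℝ} {f g : c0 → ℝ} (hf : Lip A f) (hg : Lip B g) (hfa : ∀ x, |f x| ≤ a)
    (hgb : ∀ x, |g x| ≤ b) : Lip (A * b + a * B) fun x => f x * g x := by
  intro x y
  have e : f x * g x - f y * g y = (f x - f y) * g x + f y * (g x - g y) := by ring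
  rw [e]
  refine (abs_add_le _ _).trans ?_
  rw [abs_mul, abs_mul, add_mul]
  refine add_le_add ?_ ?_
  · have h1 := hf x y
    have h2 := hgb x
    have h3 : 0 ≤ A * dist x y := (abs_nonneg _).trans h1
    calc |f x - f y| * |g x| ≤ (A * dist x y) * b := mul_le_mul h1 h2 (abs_nonneg _) h3
      _ = _ := by ring
  · have h1 := hg x y
    have h2 := hfa y
    have h3 : 0 ≤ a := (abs_nonneg _).trans h2
    calc |f y| * |g x - g y| ≤ a * (B * dist x y) := mul_le_mul h2 h1 (abs_nonneg _) h3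
      _ = _ := by ring

lemma lip_sub_comp {g : c0 → ℝ} (hg : Lip 1 g) {ρ ρ' : c0 → c0}
    (hρ : ∀ x y, dist (ρ x) (ρ y) ≤ dist x y) (hρ' : ∀ x y, dist (ρ' x) (ρ' y) ≤ dist x y) :
    Lip 2 fun x => g (ρ x) - g (ρ' x) := by
  intro x y
  have h1 := hg.comp zero_le_one hρ x y
  have h2 := hg.comp zero_le_one hρ' x y
  rw [abs_le] at h1 h2 ⊢
  constructor <;> linarith [h1.1, h1.2, h2.1, h2.2]

/-- the first reduction: boundedness -/
theorem bounded_red {μ : ℕ → c0 →₀ ℝ} (hμ : Small μ) {ε : ℝ} (hε : 0 < ε) :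
    ∃ R : ℕ, 1 ≤ R ∧ ∀ n, ∀ g, Lip 1 g →
      |pr (fun x => g x - g (clip (fun _ => (R : ℝ)) x)) (μ n)| ≤ ε := by
  by_contra hcon
  push Not at hcon
  refine glide hμ (L := 3) (by norm_num) hε (fun s => {x | (s : ℝ) < ‖x‖})
    (fun s t hst x hx => lt_of_le_of_lt (Nat.cast_le.2 hst) (show (t : ℝ) < ‖x‖ from hx)) fun s => ?_
  obtain ⟨n, g, hg, h1⟩ := hcon (max s 1) (le_max_right _ _)
  set R := max s 1 with hRdef
  have hsR : s ≤ R := le_max_left _ _
  obtain ⟨R', hR'⟩ : ∃ R' : ℕ, R ≤ R' ∧ 1 ≤ R' ∧ ∀ x ∈ (μ n).support, ‖x‖ ≤ R' := by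
    obtain ⟨M, hM⟩ := exists_nat_ge (∑ x ∈ (μ n).support, ‖x‖)
    refine ⟨max (max R 1) M, (le_max_left _ _).trans (le_max_left _ _),
      (le_max_right _ _).trans (le_max_left _ _), fun x hx => ?_⟩
    refine (Finset.single_le_sum (f := fun x : c0 => ‖x‖) (fun _ _ => norm_nonneg _) hx).trans
      (hM.trans ?_)
    exact_mod_cast le_max_right _ _
  obtain ⟨hR1, hR2, hR3⟩ := hR'
  have hR'0 : (0 : ℝ) < R' := by exact_mod_cast hR2
  set h : c0 → ℝ := fun x => g (clip (fun _ => (R' : ℝ)) x) - g (clip (fun _ => (R : ℝ)) x) with hh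
  set Ψ : c0 → ℝ := fun x => max 0 (min 1 (2 - ‖x‖ / R')) with hΨ
  have hΨ1 : ∀ x, |Ψ x| ≤ 1 := fun x => by
    rw [hΨ, abs_le]
    constructor
    · linarith [le_max_left (0 : ℝ) (min 1 (2 - ‖x‖ / R'))]
    · exact max_le zero_le_one (min_le_left _ _)
  have hΨ2 : Lip (1 / R') Ψ := fun x y => by
    rw [hΨ]
    refine (abs_max_sub_max_le_max _ _ _ _).trans ?_
    rw [sub_self, abs_zero]
    refine max_le (by positivity) ((abs_min_sub_min_le_max _ _ _ _).trans ?_)
    rw [sub_self, abs_zero]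
    refine max_le (by positivity) ?_
    have e : 2 - ‖x‖ / (R' : ℝ) - (2 - ‖y‖ / R') = (‖y‖ - ‖x‖) / R' := by ring
    rw [e, abs_div, abs_of_pos hR'0, div_le_iff₀ hR'0]
    have h2 := abs_norm_sub_norm_le y x
    rw [← dist_eq_norm, dist_comm] at h2
    calc |‖y‖ - ‖x‖| ≤ dist x y := h2
      _ = 1 / R' * dist x y * R' := by field_simp
  have hh1 : ∀ x, |h x| ≤ R' := fun x => by
    refine (hg _ _).trans ?_
    rw [one_mul]
    refine dist_le hR'0.le fun k => ?_
    rw [clip_apply' (fun _ => by positivity), clip_apply' (fun _ => by positivity)]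
    have hRR : (R : ℝ) ≤ R' := by exact_mod_cast hR1
    have h2 : cl (R : ℝ) (x k) = cl (R : ℝ) (cl (R' : ℝ) (x k)) := by
      rw [cl_cl (by positivity) (by positivity), min_eq_right hRR]
    have hR0 : (0 : ℝ) ≤ R := by positivity
    have h3 := abs_cl_le hR'0.le (x k)
    rw [h2]
    set t := cl (R' : ℝ) (x k)
    rcases le_total |t| R with h4 | h4
    · rw [cl_eq h4, sub_self, abs_zero]; exact hR'0.le
    · unfold cl
      rw [abs_le] at h3
      rcases le_total 0 t with h5 | h5
      · rw [abs_of_nonneg h5] at h4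
        rw [min_eq_left h4, max_eq_right (by linarith), abs_of_nonneg (by linarith)]
        linarith [h3.2]
      · rw [abs_of_nonpos h5] at h4
        rw [min_eq_right (by linarith), max_eq_left (by linarith), abs_of_nonpos (by linarith)]
        linarith [h3.1]
  refine ⟨n, fun x => h x * Ψ x, 2 * R', by omega, ?_, ?_, ?_, ?_, ?_⟩
  · have := lip_mul (lip_sub_comp hg (dist_clip (fun _ => (R' : ℝ))) (dist_clip (fun _ => (R : ℝ))))
      hΨ2 hh1 hΨ1
    refine Lip.of_le this ?_
    have : (R' : ℝ) * (1 / R') = 1 := by field_simp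
    rw [this]; norm_num
  · intro x hx
    have h2 : h x ≠ 0 := left_ne_zero_of_mul hx
    have hsR' : (s : ℝ) ≤ (R : ℝ) := by exact_mod_cast hsR
    refine lt_of_le_of_lt hsR' ?_
    by_contra h3
    rw [not_lt] at h3
    have hRR : (R : ℝ) ≤ R' := by exact_mod_cast hR1
    apply h2
    rw [hh]
    simp only
    rw [clip_eq fun k => (abs_le_norm x k).trans (h3.trans hRR),
      clip_eq fun k => (abs_le_norm x k).trans h3, sub_self]
  · intro x hx
    have hx' : (2 : ℝ) * R' < ‖x‖ := by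
      have : ((2 * R' : ℕ) : ℝ) < ‖x‖ := hx
      push_cast at this
      exact this
    have h2 : Ψ x = 0 := by
      rw [hΨ]
      refine max_eq_left ((min_le_right _ _).trans ?_)
      have : 2 ≤ ‖x‖ / R' := by
        rw [le_div_iff₀ hR'0]
        exact hx'.le
      linarith
    simp only
    rw [h2, mul_zero]
  · refine h1.le.trans (le_of_eq ?_)
    congr 1
    refine pr_congr fun x hx => ?_
    have h2 : Ψ x = 1 := by
      rw [hΨ]
      have h3 : ‖x‖ / (R' : ℝ) ≤ 1 := by
        rw [div_le_iff₀ hR'0, one_mul]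
        exact hR3 x hx
      have : min 1 (2 - ‖x‖ / (R' : ℝ)) = 1 := min_eq_left (by linarith)
      simp only [this]
      norm_num
    rw [h2, mul_one, hh]
    simp only
    congr 2
    exact (clip_eq fun k => (abs_le_norm x k).trans (hR3 x hx)).symm
  · intro x hx
    show ¬ ((2 * R' : ℕ) : ℝ) < ‖x‖
    have := hR3 x hx
    push_cast
    linarith

end Pool.Agent.V8H99.FC0
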