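import Pool.Agent.V8H99.FC0.Base

set_option autoImplicit false

/-!
Pointwise Lipschitz constants on convex sets.
-/

namespace Pool.Agent.V8H99.FC0

open Set Filter Topology
open Pool.Agent.TH326.C0 (c0 mk mk_apply tendsto_zero abs_sub_le dist_le norm_le abs_le_norm)

/-- the pointwise Lipschitz constant of `F` at `x`, relative to `S`, is at most `s` -/
def lipAt (S : Set c0) (F : c0 → ℝ) (x : c0) (s : ℝ) : Prop :=
  ∀ θ : ℝ, 0 < θ → ∀ᶠ y in 𝓝[S] x, |F y - F x| ≤ (s + θ) * dist y x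

lemma LipOn.lipAt {S : Set c0} {F : c0 → ℝ} {L : ℝ} (h : LipOn L F S) {x : c0} (hx : x ∈ S) :
    lipAt S F x L := by
  intro θ hθ
  filter_upwards [self_mem_nhdsWithin] with y hy
  refine (h y hy x hx).trans (mul_le_mul_of_nonneg_right (by linarith) dist_nonneg)

lemma lipAt.mono {S : Set c0} {F : c0 → ℝ} {x : c0} {s s' : ℝ} (h : lipAt S F x s) (hs : s ≤ s') :
    lipAt S F x s' := by
  intro θ hθ
  filter_upwards [h θ hθ] with y hy
  exact hy.trans (mul_le_mul_of_nonneg_right (by linarith) dist_nonneg)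

lemma lipAt.add {S : Set c0} {F G : c0 → ℝ} {x : c0} {a b : ℝ} (hF : lipAt S F x a)
    (hG : lipAt S G x b) : lipAt S (fun y => F y + G y) x (a + b) := by
  intro θ hθ
  filter_upwards [hF (θ / 2) (by linarith), hG (θ / 2) (by linarith)] with y h1 h2
  have e : F y + G y - (F x + G x) = (F y - F x) + (G y - G x) := by ring
  rw [e]
  refine (abs_add_le _ _).trans ?_
  calc _ ≤ (a + θ / 2) * dist y x + (b + θ / 2) * dist y x := add_le_add h1 h2
    _ = _ := by ring

lemma lipAt.sign {S : Set c0} {F : c0 → ℝ} {x : c0} {a σ : ℝ} (hF : lipAt S F x a)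
    (hσ : |σ| = 1) : lipAt S (fun y => σ * F y) x a := by
  intro θ hθ
  filter_upwards [hF θ hθ] with y h1
  rw [← mul_sub, abs_mul, hσ, one_mul]
  exact h1

lemma lipAt.mul {S : Set c0} {g ψ : c0 → ℝ} {x : c0} {a κ Λ : ℝ} (hg : lipAt S g x a)
    (hψ0 : ∀ y ∈ S, 0 ≤ ψ y) (hψ1 : ∀ y ∈ S, ψ y ≤ 1) (hψ : LipOn Λ ψ S)
    (hκ : ∀ y ∈ S, |g y| ≤ κ) (hx : x ∈ S) :
    lipAt S (fun y => g y * ψ y) x (ψ x * a + κ * Λ) := by
  intro θ hθ
  filter_upwards [hg θ hθ, self_mem_nhdsWithin] with y h1 hy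
  have e : g y * ψ y - g x * ψ x = ψ x * (g y - g x) + g y * (ψ y - ψ x) := by ring
  rw [e]
  refine (abs_add_le _ _).trans ?_
  rw [abs_mul, abs_mul, abs_of_nonneg (hψ0 x hx)]
  have h2 : ψ x * |g y - g x| ≤ ψ x * ((a + θ) * dist y x) :=
    mul_le_mul_of_nonneg_left h1 (hψ0 x hx)
  have h3 : |g y| * |ψ y - ψ x| ≤ κ * (Λ * dist y x) :=
    mul_le_mul (hκ y hy) (hψ y hy x hx) (abs_nonneg _) ((abs_nonneg _).trans (hκ y hy))
  have h4 : ψ x * θ * dist y x ≤ θ * dist y x := by
    have := mul_nonneg hθ.le (dist_nonneg (x := y) (y := x))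
    nlinarith [hψ1 x hx]
  calc _ ≤ ψ x * ((a + θ) * dist y x) + κ * (Λ * dist y x) := add_le_add h2 h3
    _ = (ψ x * a + κ * Λ) * dist y x + ψ x * θ * dist y x := by ring
    _ ≤ (ψ x * a + κ * Λ) * dist y x + θ * dist y x := by linarith
    _ = _ := by ring

lemma lipAt.continuousWithinAt {S : Set c0} {F : c0 → ℝ} {x : c0} {s : ℝ} (h : lipAt S F x s) :
    ContinuousWithinAt F S x := by
  rw [ContinuousWithinAt, tendsto_iff_dist_tendsto_zero]
  have h1 : Tendsto (fun y : c0 => (s + 1) * dist y x) (𝓝[S] x) (𝓝 0) := by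
    have h2 : Tendsto (fun y : c0 => (s + 1) * dist y x) (𝓝 x) (𝓝 ((s + 1) * dist x x)) :=
      (continuous_const.mul (continuous_id.dist continuous_const)).tendsto x
    rw [dist_self, mul_zero] at h2
    exact h2.mono_left nhdsWithin_le_nhds
  refine squeeze_zero' (Eventually.of_forall fun _ => dist_nonneg) ?_ h1
  filter_upwards [h 1 one_pos] with y hy
  rwa [Real.dist_eq]

/-- **mean value inequality** -/
theorem lipOn_of_lipAt {S : Set c0} (hS : Convex ℝ S) {F : c0 → ℝ} {s : ℝ}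
    (h : ∀ x ∈ S, lipAt S F x s) : LipOn s F S := by
  intro y hy x hx
  set γ : ℝ → c0 := fun t => AffineMap.lineMap x y t with hγ
  have hγS : ∀ t ∈ Icc (0 : ℝ) 1, γ t ∈ S := fun t ht => hS.lineMap_mem hx hy ht
  have hγc : Continuous γ := AffineMap.lineMap_continuous
  have hγd : ∀ t t' : ℝ, dist (γ t) (γ t') = |t - t'| * dist x y := fun t t' => by
    rw [hγ]
    simp only
    rw [dist_lineMap_lineMap, Real.dist_eq]
  have hFc : ContinuousOn (fun t => |F (γ t) - F x|) (Icc 0 1) := by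
    have h1 : ContinuousOn F S := fun z hz => (h z hz).continuousWithinAt
    exact ((h1.comp hγc.continuousOn hγS).sub continuousOn_const).abs
  have key := image_le_of_liminf_slope_right_le_deriv_boundary (f := fun t => |F (γ t) - F x|)
    (a := 0) (b := 1) hFc (B := fun t => s * dist x y * t) (B' := fun _ => s * dist x y)
    (by simp [hγ]) (by fun_prop)
    (fun t _ => by simpa using ((hasDerivAt_id t).const_mul (s * dist x y)).hasDerivWithinAt) ?_
    (right_mem_Icc.2 zero_le_one)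
  · simp only [hγ, AffineMap.lineMap_apply_one, mul_one] at key
    rw [dist_comm y x]
    exact key
  · intro t ht r hr
    -- choose θ
    obtain ⟨θ, hθ, hθr⟩ : ∃ θ : ℝ, 0 < θ ∧ (s + θ) * dist x y < r := by
      rcases eq_or_lt_of_le (dist_nonneg (x := x) (y := y)) with h0 | h0
      · refine ⟨1, one_pos, ?_⟩
        rw [← h0, mul_zero] at hr ⊢
        exact hr
      · refine ⟨(r - s * dist x y) / (2 * dist x y), by
          apply div_pos <;> linarith, ?_⟩
        have : (s + (r - s * dist x y) / (2 * dist x y)) * dist x y =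
            s * dist x y + (r - s * dist x y) / 2 := by field_simp
        rw [this]
        linarith
    refine Eventually.frequently ?_
    have h1 := h (γ t) (hγS t ⟨ht.1, ht.2.le⟩) θ hθ
    have h2 : Tendsto γ (𝓝[>] t) (𝓝[S] (γ t)) := by
      refine tendsto_nhdsWithin_iff.2 ⟨hγc.continuousAt.tendsto.mono_left nhdsWithin_le_nhds, ?_⟩
      have : ∀ᶠ z in 𝓝[>] t, z ∈ Ioo t 1 := Ioo_mem_nhdsGT ht.2
      filter_upwards [this] with z hz
      exact hγS z ⟨ht.1.trans hz.1.le, hz.2.le⟩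
    filter_upwards [h2.eventually h1, self_mem_nhdsWithin] with z hz hzt
    have hzt' : 0 < z - t := sub_pos.2 hzt
    rw [slope_def_field, div_lt_iff₀ hzt']
    have h3 := abs_sub_abs_le_abs_sub (F (γ z) - F x) (F (γ t) - F x)
    have e : F (γ z) - F x - (F (γ t) - F x) = F (γ z) - F (γ t) := by ring
    rw [e] at h3
    rw [hγd, abs_of_pos hzt'] at hz
    calc |F (γ z) - F x| - |F (γ t) - F x| ≤ (s + θ) * ((z - t) * dist x y) := h3.trans hz
      _ = ((s + θ) * dist x y) * (z - t) := by ring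
      _ < r * (z - t) := mul_lt_mul_of_pos_right hθr hzt'

/-- the box -/
def box (r : ℕ → ℝ) : Set c0 := {x | ∀ k, |x k| ≤ r k}

lemma convex_box (r : ℕ → ℝ) : Convex ℝ (box r) := by
  intro x hx y hy a b ha hb hab k
  have e : (a • x + b • y) k = a * x k + b * y k := by
    simp [ZeroAtInftyContinuousMap.add_apply, ZeroAtInftyContinuousMap.smul_apply]
  rw [e]
  have h1 := hx k
  have h2 := hy k
  calc |a * x k + b * y k| ≤ |a * x k| + |b * y k| := abs_add_le _ _
    _ = a * |x k| + b * |y k| := by rw [abs_mul, abs_mul, abs_of_nonneg ha, abs_of_nonneg hb]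
    _ ≤ a * r k + b * r k := add_le_add (mul_le_mul_of_nonneg_left h1 ha) (mul_le_mul_of_nonneg_left h2 hb)
    _ = r k := by rw [← add_mul, hab, one_mul]

lemma clip_mem_box {r : ℕ → ℝ} (hr : ∀ k, 0 ≤ r k) (x : c0) : clip r x ∈ box r := fun k => by
  rw [clip_apply' hr]
  exact abs_cl_le (hr k) _

/-- extension from a subset -/
lemma LipOn.extend {S : Set c0} {F : c0 → ℝ} {L : ℝ} (hL : 0 ≤ L) (h : LipOn L F S) :
    ∃ G : c0 → ℝ, Lip L G ∧ ∀ x ∈ S, G x = F x := by
  have h1 : LipschitzOnWith (Real.toNNReal L) F S := by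
    refine LipschitzOnWith.of_dist_le_mul fun x hx y hy => ?_
    rw [Real.dist_eq, Real.coe_toNNReal _ hL]
    exact h x hx y hy
  obtain ⟨G, hG, hGF⟩ := h1.extend_real
  refine ⟨G, fun x y => ?_, fun x hx => (hGF hx).symm⟩
  have := hG.dist_le_mul x y
  rwa [Real.dist_eq, Real.coe_toNNReal _ hL] at this

end Pool.Agent.V8H99.FC0
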