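import Mathlib

set_option autoImplicit false

/-!
The cotype inequality in the dual of `ℓ_∞^N`, and the number of functions with a large derivative.
-/

namespace Pool.Agent.V8H99.FC0

open Set Filter Topology

/-- the potential -/
noncomputable def Lam (m t v : ℝ) : ℝ :=
  3 / 4 * (t ^ 2 + v) / m - 1 / 16 * (t ^ 4 + 6 * t ^ 2 * v + 3 * v ^ 2) / m ^ 3

lemma Lam_avg {m : ℝ} (hm : 0 ≤ m) (t b v : ℝ) :
    Lam m t (v + b ^ 2) ≤ (Lam m (t + b) v + Lam m (t - b) v) / 2 := by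
  have e : (Lam m (t + b) v + Lam m (t - b) v) / 2 - Lam m t (v + b ^ 2) = b ^ 4 / 8 / m ^ 3 := by
    unfold Lam
    ring
  have : 0 ≤ b ^ 4 / 8 / m ^ 3 := by positivity
  linarith

lemma Lam_le {m : ℝ} (hm : 0 ≤ m) (t : ℝ) : Lam m t 0 ≤ |t| := by
  rcases hm.eq_or_lt with rfl | hm
  · unfold Lam
    simp
  · have e : |t| - Lam m t 0 = |t| * ((|t| - 2 * m) ^ 2 * (|t| + 4 * m)) / (16 * m ^ 3) := by
      unfold Lam
      have h2 : t ^ 2 = |t| ^ 2 := (sq_abs t).symm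
      have h4 : t ^ 4 = |t| ^ 4 := by
        have : t ^ 4 = (t ^ 2) ^ 2 := by ring
        rw [this, h2]; ring
      rw [h2, h4]
      field_simp
      ring
    have : 0 ≤ |t| * ((|t| - 2 * m) ^ 2 * (|t| + 4 * m)) / (16 * m ^ 3) := by positivity
    linarith

lemma Lam_start {m : ℝ} : Lam m 0 (m ^ 2) = 9 / 16 * m := by
  rcases eq_or_ne m 0 with rfl | hm
  · unfold Lam
    simp
  · unfold Lam
    field_simp
    ring

theorem greedy {N : ℕ} (m : Fin N → ℝ) (hm : ∀ k, 0 ≤ m k) (b : ℕ → Fin N → ℝ) (A : Finset ℕ) :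
    ∀ t : Fin N → ℝ, ∃ s : ℕ → ℝ, (∀ i, s i = 1 ∨ s i = -1) ∧
      ∑ k, Lam (m k) (t k) (∑ w ∈ A, b w k ^ 2) ≤ ∑ k, Lam (m k) (t k + ∑ w ∈ A, s w * b w k) 0 := by
  classical
  induction A using Finset.induction_on with
  | empty => exact fun t => ⟨fun _ => 1, fun _ => Or.inl rfl, by simp⟩
  | insert w A hw ih =>
    intro t
    obtain ⟨σ, hσ, h1⟩ : ∃ σ : ℝ, (σ = 1 ∨ σ = -1) ∧
        ∑ k, Lam (m k) (t k) (∑ w ∈ insert w A, b w k ^ 2) ≤
          ∑ k, Lam (m k) (t k + σ * b w k) (∑ w ∈ A, b w k ^ 2) := by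
      have h2 : ∑ k, Lam (m k) (t k) (∑ w ∈ insert w A, b w k ^ 2) ≤
          (∑ k, Lam (m k) (t k + 1 * b w k) (∑ w ∈ A, b w k ^ 2) +
            ∑ k, Lam (m k) (t k + (-1) * b w k) (∑ w ∈ A, b w k ^ 2)) / 2 := by
        rw [← Finset.sum_add_distrib, Finset.sum_div]
        refine Finset.sum_le_sum fun k _ => ?_
        rw [Finset.sum_insert hw, add_comm (b w k ^ 2), one_mul, neg_one_mul, ← sub_eq_add_neg]
        exact Lam_avg (hm k) _ _ _
      rcases le_total (∑ k, Lam (m k) (t k + 1 * b w k) (∑ w ∈ A, b w k ^ 2))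
        (∑ k, Lam (m k) (t k + (-1) * b w k) (∑ w ∈ A, b w k ^ 2)) with h3 | h3
      · exact ⟨-1, Or.inr rfl, by linarith⟩
      · exact ⟨1, Or.inl rfl, by linarith⟩
    obtain ⟨s, hs, h2⟩ := ih fun k => t k + σ * b w k
    refine ⟨Function.update s w σ, fun i => ?_, h1.trans (h2.trans (le_of_eq ?_))⟩
    · rcases eq_or_ne i w with rfl | h
      · rw [Function.update_self]; exact hσ
      · rw [Function.update_of_ne h]; exact hs i
    · refine Finset.sum_congr rfl fun k _ => ?_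
      rw [Finset.sum_insert hw, Function.update_self, ← add_assoc]
      congr 2
      refine Finset.sum_congr rfl fun i hi => ?_
      rw [Function.update_of_ne]
      rintro rfl
      exact hw hi

theorem khin {N : ℕ} (b : ℕ → Fin N → ℝ) (A : Finset ℕ) {a : ℝ}
    (ha : ∀ w ∈ A, a ≤ ∑ k, |b w k|) : ∃ s : ℕ → ℝ, (∀ i, s i = 1 ∨ s i = -1) ∧
      9 / 16 * (√(A.card : ℝ) * a) ≤ ∑ k, |∑ w ∈ A, s w * b w k| := by
  set m : Fin N → ℝ := fun k => √(∑ w ∈ A, b w k ^ 2) with hm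
  have hsq : ∀ k, m k ^ 2 = ∑ w ∈ A, b w k ^ 2 := fun k =>
    Real.sq_sqrt (Finset.sum_nonneg fun _ _ => sq_nonneg _)
  obtain ⟨s, hs, h1⟩ := greedy m (fun k => Real.sqrt_nonneg _) b A 0
  refine ⟨s, hs, ?_⟩
  have h2 : ∑ k, 9 / 16 * m k ≤ ∑ k, |∑ w ∈ A, s w * b w k| := by
    have e : ∀ k, Lam (m k) ((0 : Fin N → ℝ) k) (∑ w ∈ A, b w k ^ 2) = 9 / 16 * m k := fun k => by
      rw [← hsq, Pi.zero_apply, Lam_start]
    simp only [e] at h1
    refine h1.trans (Finset.sum_le_sum fun k _ => ?_)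
    rw [Pi.zero_apply, zero_add]
    exact Lam_le (Real.sqrt_nonneg _) _
  refine le_trans ?_ h2
  rw [← Finset.mul_sum]
  refine mul_le_mul_of_nonneg_left ?_ (by norm_num)
  -- Cauchy-Schwarz
  rcases A.eq_empty_or_nonempty with rfl | hA
  · simp only [Finset.card_empty, Nat.cast_zero, Real.sqrt_zero, zero_mul]
    exact Finset.sum_nonneg fun _ _ => Real.sqrt_nonneg _
  have hA0 : (0 : ℝ) < A.card := by exact_mod_cast hA.card_pos
  have hsA : 0 < √(A.card : ℝ) := Real.sqrt_pos.2 hA0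
  have h3 : ∀ k, ∑ w ∈ A, |b w k| ≤ √(A.card : ℝ) * m k := fun k => by
    rw [hm, ← Real.sqrt_mul hA0.le]
    refine Real.le_sqrt_of_sq_le ?_
    have := sq_sum_le_card_mul_sum_sq (s := A) (f := fun w => |b w k|)
    simpa only [sq_abs] using this
  have h4 : (A.card : ℝ) * a ≤ √(A.card : ℝ) * ∑ k, m k := by
    calc (A.card : ℝ) * a = ∑ w ∈ A, a := by rw [Finset.sum_const, nsmul_eq_mul]
      _ ≤ ∑ w ∈ A, ∑ k, |b w k| := Finset.sum_le_sum ha
      _ = ∑ k, ∑ w ∈ A, |b w k| := Finset.sum_comm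
      _ ≤ ∑ k, √(A.card : ℝ) * m k := Finset.sum_le_sum fun k _ => h3 k
      _ = _ := by rw [Finset.mul_sum]
  have h5 : √(A.card : ℝ) * √(A.card : ℝ) = (A.card : ℝ) := Real.mul_self_sqrt hA0.le
  have h6 : √(A.card : ℝ) * (√(A.card : ℝ) * a) ≤ √(A.card : ℝ) * ∑ k, m k := by
    rw [← mul_assoc, h5]
    exact h4
  exact le_of_mul_le_mul_left h6 hsA

lemma norm_le_sum {N : ℕ} (v : (Fin N → ℝ) →L[ℝ] ℝ) : ‖v‖ ≤ ∑ k, |v (Pi.single k 1)| := by
  refine ContinuousLinearMap.opNorm_le_bound _ (Finset.sum_nonneg fun _ _ => abs_nonneg _) fun z => ?_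
  have e : v z = ∑ k, z k * v (Pi.single k 1) := by
    conv_lhs => rw [← Finset.univ_sum_single z]
    rw [map_sum]
    refine Finset.sum_congr rfl fun k _ => ?_
    have : (Pi.single k (z k) : Fin N → ℝ) = z k • Pi.single k (1 : ℝ) := by
      rw [← Pi.single_smul, smul_eq_mul, mul_one]
    rw [this, map_smul, smul_eq_mul]
  rw [e, Finset.sum_mul]
  refine (norm_sum_le _ _).trans (Finset.sum_le_sum fun k _ => ?_)
  rw [norm_mul, mul_comm, Real.norm_eq_abs]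
  exact mul_le_mul_of_nonneg_left (norm_le_pi_norm z k) (abs_nonneg _)

lemma sum_le_norm {N : ℕ} (v : (Fin N → ℝ) →L[ℝ] ℝ) : ∑ k, |v (Pi.single k 1)| ≤ ‖v‖ := by
  set z : Fin N → ℝ := fun k => SignType.sign (v (Pi.single k 1)) with hz
  have hz1 : ‖z‖ ≤ 1 := by
    refine (pi_norm_le_iff_of_nonneg zero_le_one).2 fun k => ?_
    rw [hz, Real.norm_eq_abs]
    simp only
    rcases lt_trichotomy (v (Pi.single k 1)) 0 with h | h | h
    · rw [sign_neg h]; simp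
    · rw [h, sign_zero]; simp
    · rw [sign_pos h]; simp
  have e : v z = ∑ k, |v (Pi.single k 1)| := by
    conv_lhs => rw [← Finset.univ_sum_single z]
    rw [map_sum]
    refine Finset.sum_congr rfl fun k _ => ?_
    have : (Pi.single k (z k) : Fin N → ℝ) = z k • Pi.single k (1 : ℝ) := by
      rw [← Pi.single_smul, smul_eq_mul, mul_one]
    rw [this, map_smul, smul_eq_mul, hz]
    simp only
    exact sign_mul_self _
  rw [← e]
  refine (le_abs_self _).trans ?_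
  rw [← Real.norm_eq_abs]
  exact (v.le_opNorm z).trans (mul_le_of_le_one_right (norm_nonneg _) hz1)

/-- **bounded overlap** -/
theorem overlap {N : ℕ} (g : ℕ → (Fin N → ℝ) → ℝ) (W : Finset ℕ) {c a : ℝ} {N₁ : ℕ} (hN₁ : 1 ≤ N₁)
    (hc : 0 ≤ c) (ha : 0 < a) (hca : c ≤ a / 2) (z : Fin N → ℝ)
    (hlip : ∀ A ⊆ W, N₁ ≤ A.card → ∀ s : ℕ → ℝ, (∀ i, s i = 1 ∨ s i = -1) → ∀ z',
      |∑ w ∈ A, s w * g w z' - ∑ w ∈ A, s w * g w z| ≤ c * √(A.card : ℝ) * ‖z' - z‖)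
    (hdiff : ∀ w ∈ W, DifferentiableAt ℝ (g w) z) :
    (W.filter fun w => a < ‖fderiv ℝ (g w) z‖).card < N₁ := by
  by_contra hcon
  rw [not_lt] at hcon
  set A := W.filter fun w => a < ‖fderiv ℝ (g w) z‖ with hA
  have hAW : A ⊆ W := Finset.filter_subset _ _
  obtain ⟨s, hs, h1⟩ := khin (fun w k => fderiv ℝ (g w) z (Pi.single k 1)) A (a := a) fun w hw =>
    ((Finset.mem_filter.1 hw).2.le).trans (norm_le_sum _)
  have h2 : HasFDerivAt (fun z' => ∑ w ∈ A, s w * g w z') (∑ w ∈ A, s w • fderiv ℝ (g w) z) z := by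
    refine HasFDerivAt.fun_sum fun w hw => ?_
    exact ((hdiff w (hAW hw)).hasFDerivAt).const_mul (s w)
  have hcA : 0 ≤ c * √(A.card : ℝ) := mul_nonneg hc (Real.sqrt_nonneg _)
  have h3 : ‖∑ w ∈ A, s w • fderiv ℝ (g w) z‖ ≤ c * √(A.card : ℝ) :=
    h2.le_of_lip' hcA (Eventually.of_forall fun z' => hlip A hAW hcon s hs z')
  have h4 := sum_le_norm (∑ w ∈ A, s w • fderiv ℝ (g w) z)
  have h5 : ∀ k, (∑ w ∈ A, s w • fderiv ℝ (g w) z) (Pi.single k 1) =
      ∑ w ∈ A, s w * fderiv ℝ (g w) z (Pi.single k 1) := fun k => by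
    rw [sum_apply]
    rfl
  simp only [h5] at h4
  have h6 : 9 / 16 * (√(A.card : ℝ) * a) ≤ c * √(A.card : ℝ) := h1.trans (h4.trans h3)
  have hA0 : (0 : ℝ) < A.card := by
    have : 0 < A.card := lt_of_lt_of_le hN₁ hcon
    exact_mod_cast this
  have hsA : 0 < √(A.card : ℝ) := Real.sqrt_pos.2 hA0
  have h7 : c * √(A.card : ℝ) ≤ a / 2 * √(A.card : ℝ) := mul_le_mul_of_nonneg_right hca hsA.le
  have h8 : 0 < √(A.card : ℝ) * a := by positivity
  nlinarith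

end Pool.Agent.V8H99.FC0
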