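import Pool.Agent.V8H99.FC0.Base

set_option autoImplicit false

/-!
Smoothing of Lipschitz functions on `ℝ^N`.
-/

namespace Pool.Agent.V8H99.FC0

open Set Filter Topology MeasureTheory
open Pool.Agent.TH326.C0 (c0 mk mk_apply tendsto_zero abs_sub_le dist_le norm_le abs_le_norm)
open scoped Convolution ContDiff

/-- smoothing by a bump function -/
noncomputable def sm {N : ℕ} (φ : ContDiffBump (0 : Fin N → ℝ)) (f : (Fin N → ℝ) → ℝ) (z : Fin N → ℝ) : ℝ :=
  ∫ t, φ.normed volume t * f (z - t)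

lemma sm_eq {N : ℕ} (φ : ContDiffBump (0 : Fin N → ℝ)) (f : (Fin N → ℝ) → ℝ) :
    sm φ f = (φ.normed volume ⋆[ContinuousLinearMap.lsmul ℝ ℝ, volume] f : (Fin N → ℝ) → ℝ) := by
  funext z
  rfl

lemma sm_contDiff {N : ℕ} (φ : ContDiffBump (0 : Fin N → ℝ)) {f : (Fin N → ℝ) → ℝ} (hf : Continuous f) :
    ContDiff ℝ 2 (sm φ f) := by
  rw [sm_eq]
  exact φ.hasCompactSupport_normed.contDiff_convolution_left _ (φ.contDiff_normed (n := 2))
    hf.locallyIntegrable

lemma sm_dist {N : ℕ} (φ : ContDiffBump (0 : Fin N → ℝ)) {f : (Fin N → ℝ) → ℝ} (hf : Continuous f)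
    {C : ℝ} (hC : ∀ u v, |f u - f v| ≤ C * ‖u - v‖) (hC0 : 0 ≤ C) (z : Fin N → ℝ) :
    |sm φ f z - f z| ≤ C * φ.rOut := by
  rw [sm_eq, ← Real.dist_eq]
  refine φ.dist_normed_convolution_le hf.aestronglyMeasurable fun x hx => ?_
  rw [Real.dist_eq]
  refine (hC x z).trans (mul_le_mul_of_nonneg_left ?_ hC0)
  rw [Metric.mem_ball, dist_eq_norm] at hx
  exact hx.le

lemma sm_integrable {N : ℕ} (φ : ContDiffBump (0 : Fin N → ℝ)) {f : (Fin N → ℝ) → ℝ} (hf : Continuous f)
    (z : Fin N → ℝ) : Integrable (fun t => φ.normed volume t * f (z - t)) := by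
  refine Continuous.integrable_of_hasCompactSupport ?_ (φ.hasCompactSupport_normed.mul_right)
  exact φ.continuous_normed.mul (hf.comp (continuous_const.sub continuous_id))

lemma sm_lip {N : ℕ} (φ : ContDiffBump (0 : Fin N → ℝ)) (A : Finset ℕ) (s : ℕ → ℝ)
    (f : ℕ → (Fin N → ℝ) → ℝ) (hf : ∀ w, Continuous (f w)) {L : ℝ}
    (h : ∀ u v, |∑ w ∈ A, s w * f w u - ∑ w ∈ A, s w * f w v| ≤ L * ‖u - v‖) (z z' : Fin N → ℝ) :
    |∑ w ∈ A, s w * sm φ (f w) z - ∑ w ∈ A, s w * sm φ (f w) z'| ≤ L * ‖z - z'‖ := by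
  have e : ∀ z, ∑ w ∈ A, s w * sm φ (f w) z =
      ∫ t, φ.normed volume t * ∑ w ∈ A, s w * f w (z - t) := by
    intro z
    have : ∀ t, φ.normed volume t * ∑ w ∈ A, s w * f w (z - t) =
        ∑ w ∈ A, s w * (φ.normed volume t * f w (z - t)) := fun t => by
      rw [Finset.mul_sum]
      exact Finset.sum_congr rfl fun w _ => by ring
    simp only [this]
    rw [integral_finsetSum _ fun w _ => (sm_integrable φ (hf w) z).const_mul _]
    exact Finset.sum_congr rfl fun w _ => by rw [integral_const_mul]; rfl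
  have hint : ∀ z, Integrable fun t => φ.normed volume t * ∑ w ∈ A, s w * f w (z - t) := fun z => by
    refine sm_integrable φ (f := fun u => ∑ w ∈ A, s w * f w u) ?_ z
    exact continuous_finsetSum _ fun w _ => continuous_const.mul (hf w)
  rw [e, e, ← integral_sub (hint z) (hint z')]
  have h1 : ∀ t, ‖φ.normed volume t * ∑ w ∈ A, s w * f w (z - t) -
      φ.normed volume t * ∑ w ∈ A, s w * f w (z' - t)‖ ≤ φ.normed volume t * (L * ‖z - z'‖) := by
    intro t
    rw [← mul_sub, norm_mul, Real.norm_eq_abs, Real.norm_eq_abs, abs_of_nonneg (φ.nonneg_normed t)]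
    refine mul_le_mul_of_nonneg_left ?_ (φ.nonneg_normed t)
    have := h (z - t) (z' - t)
    rwa [sub_sub_sub_cancel_right] at this
  rw [← Real.norm_eq_abs]
  refine (norm_integral_le_of_norm_le ?_ (Eventually.of_forall h1)).trans (le_of_eq ?_)
  · exact φ.integrable_normed.mul_const _
  · rw [integral_mul_const, φ.integral_normed, one_mul]

/-- extension by zero -/
noncomputable def ext0 (N : ℕ) (z : Fin N → ℝ) : c0 :=
  mk (fun k => if h : k < N then z ⟨k, h⟩ else 0) <| by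
    refine tendsto_const_nhds.congr' ?_
    filter_upwards [eventually_ge_atTop N] with k hk
    rw [dif_neg (not_lt.2 hk)]

/-- the first coordinates -/
noncomputable def proj (N : ℕ) (x : c0) : Fin N → ℝ := fun k => x k

lemma dist_ext0 {N : ℕ} (z z' : Fin N → ℝ) : dist (ext0 N z) (ext0 N z') ≤ ‖z - z'‖ :=
  dist_le (norm_nonneg _) fun k => by
    unfold ext0
    rw [mk_apply, mk_apply]
    split_ifs with h
    · exact norm_le_pi_norm (z - z') ⟨k, h⟩
    · rw [sub_self, abs_zero]; exact norm_nonneg _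

lemma norm_proj_sub {N : ℕ} (x y : c0) : ‖proj N x - proj N y‖ ≤ dist x y :=
  (pi_norm_le_iff_of_nonneg dist_nonneg).2 fun k => abs_sub_le x y k

lemma dist_ext0_proj {N : ℕ} (x : c0) {t : ℝ} (ht : 0 ≤ t) (h : ∀ k ≥ N, |x k| ≤ t) :
    dist (ext0 N (proj N x)) x ≤ t :=
  dist_le ht fun k => by
    unfold ext0 proj
    rw [mk_apply]
    split_ifs with hk
    · rw [sub_self, abs_zero]; exact ht
    · rw [zero_sub, abs_neg]; exact h k (not_lt.1 hk)

lemma continuous_ext0 {N : ℕ} : Continuous (ext0 N) := by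
  have : LipschitzWith 1 (ext0 N) := LipschitzWith.of_dist_le_mul fun z z' => by
    rw [NNReal.coe_one, one_mul, dist_eq_norm z z']
    exact dist_ext0 z z'
  exact this.continuous

/-- a twice differentiable function has a Lipschitz derivative on boxes -/
lemma fderiv_lip {N : ℕ} {g : (Fin N → ℝ) → ℝ} (hg : ContDiff ℝ 2 g) (R : ℝ) :
    ∃ M : ℝ, 0 ≤ M ∧ ∀ z ∈ Metric.closedBall (0 : Fin N → ℝ) R, ∀ z' ∈ Metric.closedBall (0 : Fin N → ℝ) R,
      ‖fderiv ℝ g z - fderiv ℝ g z'‖ ≤ M * ‖z - z'‖ := by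
  have h1 : ContDiff ℝ 1 (fderiv ℝ g) := hg.fderiv_right (by norm_num)
  obtain ⟨K, hK⟩ := ContDiffOn.exists_lipschitzOnWith (s := Metric.closedBall (0 : Fin N → ℝ) R)
    h1.contDiffOn one_ne_zero (convex_closedBall _ _) (isCompact_closedBall _ _)
  refine ⟨K, K.2, fun z hz z' hz' => ?_⟩
  have := hK.dist_le_mul z hz z' hz'
  rwa [dist_eq_norm, dist_eq_norm] at this

end Pool.Agent.V8H99.FC0
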