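import Pool.Agent.V8H99.FC0.Local
import Pool.Agent.V8H99.FC0.Smooth
import Pool.Agent.V8H99.FC0.Overlap

set_option autoImplicit false

/-!
One stage of the construction.
-/

namespace Pool.Agent.V8H99.FC0

open Set Filter Topology
open Pool.Agent.TH326.C0 (c0 mk mk_apply tendsto_zero abs_sub_le dist_le norm_le abs_le_norm)

/-- the hypotheses: measures on a compact box with bounded Kantorovich norm, and functions with `o(√s)` sums of `s`
members, converging to zero -/
structure Hyp (r : ℕ → ℝ) (C : ℝ) (μ : ℕ → c0 →₀ ℝ) (f : ℕ → c0 → ℝ) : Prop where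
  rpos : ∀ k, 0 < r k
  rlim : Tendsto r atTop (𝓝 0)
  Cpos : 0 < C
  supp : ∀ n, ∀ x ∈ (μ n).support, x ∈ box r
  bdd : ∀ n, ∀ g, Lip 1 g → |pr g (μ n)| ≤ C
  lip : ∀ n, Lip C (f n)
  sums : ∀ c : ℝ, 0 < c → ∃ N₁ : ℕ, 1 ≤ N₁ ∧ ∀ A : Finset ℕ, N₁ ≤ A.card → ∀ s : ℕ → ℝ,
    (∀ i, s i = 1 ∨ s i = -1) → Lip (c * √(A.card : ℝ)) fun x => ∑ w ∈ A, s w * f w x
  lim : ∀ x, Tendsto (fun n => f n x) atTop (𝓝 0)

variable {r : ℕ → ℝ} {C : ℝ} {μ : ℕ → c0 →₀ ℝ} {f : ℕ → c0 → ℝ}

lemma Hyp.exists_R (h : Hyp r C μ f) : ∃ R : ℝ, 0 < R ∧ ∀ k, r k ≤ R := by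
  obtain ⟨R, hR⟩ := h.rlim.bddAbove_range
  refine ⟨max R 1, by positivity, fun k => (hR ⟨k, rfl⟩).trans (le_max_left _ _)⟩

lemma Hyp.exists_N (h : Hyp r C μ f) {t : ℝ} (ht : 0 < t) : ∃ N, ∀ k ≥ N, r k ≤ t :=
  eventually_atTop.1 (h.rlim.eventually_le_const ht)

lemma proj_mem {R : ℝ} (hR0 : 0 ≤ R) (hR : ∀ k, r k ≤ R) {N : ℕ} {x : c0} (hx : x ∈ box r) :
    proj N x ∈ Metric.closedBall (0 : Fin N → ℝ) R := by
  rw [mem_closedBall_zero_iff]
  exact (pi_norm_le_iff_of_nonneg hR0).2 fun k => (hx k).trans (hR k)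

/-- uniform convergence on the box -/
theorem Hyp.unif (h : Hyp r C μ f) {κ : ℝ} (hκ : 0 < κ) :
    ∀ᶠ n in atTop, ∀ x ∈ box r, |f n x| ≤ κ := by
  obtain ⟨R, hR0, hR⟩ := h.exists_R
  set θ := κ / (4 * C) with hθ
  have hC := h.Cpos
  have hθ0 : 0 < θ := by rw [hθ]; positivity
  obtain ⟨N, hN⟩ := h.exists_N hθ0
  obtain ⟨t, -, htf, ht⟩ := (isCompact_closedBall (0 : Fin N → ℝ) R).finite_cover_balls hθ0
  have h1 : ∀ᶠ n in atTop, ∀ z ∈ t, |f n (ext0 N z)| ≤ κ / 2 := by
    rw [Filter.eventually_all_finite htf]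
    intro z _
    have h2 := (h.lim (ext0 N z)).abs
    rw [abs_zero] at h2
    exact h2.eventually_le_const (by linarith)
  filter_upwards [h1] with n hn x hx
  obtain ⟨z, hz, hxz⟩ : ∃ z ∈ t, proj N x ∈ Metric.ball z θ := by
    have := ht (proj_mem hR0.le hR hx (N := N))
    simpa using this
  rw [Metric.mem_ball, dist_eq_norm] at hxz
  have h3 : |f n x - f n (ext0 N (proj N x))| ≤ C * θ := by
    refine (h.lip n _ _).trans (mul_le_mul_of_nonneg_left ?_ hC.le)
    rw [dist_comm]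
    exact dist_ext0_proj x hθ0.le fun k hk => (hx k).trans (hN k hk)
  have h4 : |f n (ext0 N (proj N x)) - f n (ext0 N z)| ≤ C * θ := by
    refine (h.lip n _ _).trans (mul_le_mul_of_nonneg_left ?_ hC.le)
    exact (dist_ext0 _ _).trans hxz.le
  have h5 := hn z hz
  have h6 : C * θ = κ / 4 := by rw [hθ]; field_simp
  rw [h6] at h3 h4
  rw [abs_le] at h3 h4 h5 ⊢
  constructor <;> linarith [h3.1, h3.2, h4.1, h4.2, h5.1, h5.2]

/-- the pairing is bounded by the Lipschitz constant on the box -/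
lemma Hyp.pr_le (h : Hyp r C μ f) {L : ℝ} (hL : 0 < L) {g : c0 → ℝ} (hg : LipOn L g (box r)) (n : ℕ) :
    |pr g (μ n)| ≤ C * L := by
  obtain ⟨G, hG, hGg⟩ := hg.extend hL.le
  rw [← pr_congr fun x hx => hGg x (h.supp n x hx)]
  have h1 : Lip 1 fun x => L⁻¹ * G x := fun x y => by
    rw [← mul_sub, abs_mul, abs_of_pos (inv_pos.2 hL), one_mul]
    calc L⁻¹ * |G x - G y| ≤ L⁻¹ * (L * dist x y) :=
          mul_le_mul_of_nonneg_left (hG x y) (inv_pos.2 hL).le
      _ = dist x y := by field_simp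
  have h2 := h.bdd n _ h1
  rw [pr_smul, abs_mul, abs_of_pos (inv_pos.2 hL), inv_mul_le_iff₀ hL] at h2
  linarith

/-- signs of numbers -/
lemma exists_signs (W : Finset ℕ) (a : ℕ → ℝ) : ∃ s : ℕ → ℝ, (∀ i, s i = 1 ∨ s i = -1) ∧
    ∑ w ∈ W, |a w| = ∑ w ∈ W, s w * a w := by
  refine ⟨fun w => if 0 ≤ a w then 1 else -1, fun i => ?_, Finset.sum_congr rfl fun w _ => ?_⟩
  · by_cases h : 0 ≤ a i
    · left; simp only [if_pos h]
    · right; simp only [if_neg h]
  · by_cases h : 0 ≤ a w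
    · simp only [if_pos h, one_mul, abs_of_nonneg h]
    · simp only [if_neg h, neg_one_mul, abs_of_neg (not_le.1 h)]

lemma lipOn_mul {S : Set c0} {A B a b : ℝ} {g k : c0 → ℝ} (hg : LipOn A g S) (hk : LipOn B k S)
    (hga : ∀ x ∈ S, |g x| ≤ a) (hkb : ∀ x ∈ S, |k x| ≤ b) : LipOn (A * b + a * B) (fun x => g x * k x) S := by
  intro x hx y hy
  have e : g x * k x - g y * k y = (g x - g y) * k x + g y * (k x - k y) := by ring
  rw [e]
  refine (abs_add_le _ _).trans ?_
  rw [abs_mul, abs_mul, add_mul]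
  refine add_le_add ?_ ?_
  · have h1 := hg x hx y hy
    calc |g x - g y| * |k x| ≤ (A * dist x y) * b :=
          mul_le_mul h1 (hkb x hx) (abs_nonneg _) ((abs_nonneg _).trans h1)
      _ = _ := by ring
  · calc |g y| * |k x - k y| ≤ a * (B * dist x y) :=
          mul_le_mul (hga y hy) (hk x hx y hy) (abs_nonneg _) ((abs_nonneg _).trans (hga y hy))
      _ = _ := by ring

/-- smooth approximation of finitely many of the functions, with bounded overlap of the sets where the derivatives are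
large -/
theorem Hyp.approx (h : Hyp r C μ f) {η κ' : ℝ} (hη : 0 < η) (hκ' : 0 < κ') {N₁ : ℕ} (hN₁ : 1 ≤ N₁)
    (hsum : ∀ A : Finset ℕ, N₁ ≤ A.card → ∀ s : ℕ → ℝ, (∀ i, s i = 1 ∨ s i = -1) →
      Lip (η / 4 * √(A.card : ℝ)) fun x => ∑ w ∈ A, s w * f w x) (W : Finset ℕ) :
    ∃ (g χ : ℕ → c0 → ℝ) (M : ℝ), 0 ≤ M ∧ (∀ w, ∀ x ∈ box r, |g w x - f w x| ≤ κ') ∧
      (∀ w, ∀ x ∈ box r, 0 ≤ χ w x) ∧ (∀ w, ∀ x ∈ box r, χ w x ≤ 1) ∧
      (∀ w ∈ W, LipOn M (χ w) (box r)) ∧ (∀ w, ∀ x ∈ box r, lipAt (box r) (g w) x C) ∧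
      (∀ w, ∀ x ∈ box r, χ w x < 1 → lipAt (box r) (g w) x η) ∧
      ∀ x ∈ box r, (W.filter fun w => χ w x ≠ 0).card ≤ N₁ := by
  obtain ⟨R, hR0, hR⟩ := h.exists_R
  have hC := h.Cpos
  set t := κ' / (2 * C) with ht
  have ht0 : 0 < t := by rw [ht]; positivity
  have hCt : C * t = κ' / 2 := by rw [ht]; field_simp
  obtain ⟨N, hN⟩ := h.exists_N ht0
  let φ : ContDiffBump (0 : Fin N → ℝ) := ⟨t / 2, t, by positivity, by linarith⟩
  have hφ : φ.rOut = t := rfl
  set F : ℕ → (Fin N → ℝ) → ℝ := fun w z => f w (ext0 N z) with hF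
  have hFc : ∀ w, Continuous (F w) := fun w => by
    have : Continuous (f w) := by
      have : LipschitzWith (Real.toNNReal C) (f w) := LipschitzWith.of_dist_le_mul fun x y => by
        rw [Real.dist_eq, Real.coe_toNNReal _ hC.le]
        exact h.lip w x y
      exact this.continuous
    exact this.comp continuous_ext0
  have hFl : ∀ w u v, |F w u - F w v| ≤ C * ‖u - v‖ := fun w u v =>
    (h.lip w _ _).trans (mul_le_mul_of_nonneg_left (dist_ext0 _ _) hC.le)
  set G : ℕ → (Fin N → ℝ) → ℝ := fun w => sm φ (F w) with hG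
  have hGs : ∀ w, ContDiff ℝ 2 (G w) := fun w => sm_contDiff φ (hFc w)
  have hGd : ∀ w z, DifferentiableAt ℝ (G w) z := fun w z => (hGs w).differentiable (by norm_num) z
  choose M hM0 hM using fun w => fderiv_lip (hGs w) R
  have hpr : ∀ x ∈ box r, proj N x ∈ Metric.closedBall (0 : Fin N → ℝ) R := fun x hx =>
    proj_mem hR0.le hR hx
  refine ⟨fun w x => G w (proj N x), fun w x => max 0 (min 1 (2 / η * ‖fderiv ℝ (G w) (proj N x)‖ - 1)),
    2 / η * ∑ w ∈ W, M w, ?_, ?_, ?_, ?_, ?_, ?_, ?_, ?_⟩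
  · exact mul_nonneg (by positivity) (Finset.sum_nonneg fun w _ => hM0 w)
  · intro w x hx
    have h1 : |G w (proj N x) - F w (proj N x)| ≤ C * t := by
      have := sm_dist φ (hFc w) (hFl w) hC.le (proj N x)
      rwa [hφ] at this
    have h2 : |F w (proj N x) - f w x| ≤ C * t :=
      (h.lip w _ _).trans (mul_le_mul_of_nonneg_left
        (dist_ext0_proj x ht0.le fun k hk => (hx k).trans (hN k hk)) hC.le)
    rw [hCt] at h1 h2
    rw [abs_le] at h1 h2 ⊢
    constructor <;> linarith [h1.1, h1.2, h2.1, h2.2]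
  · exact fun w x _ => le_max_left _ _
  · exact fun w x _ => max_le zero_le_one (min_le_left _ _)
  · intro w hw x hx y hy
    have hW : M w ≤ ∑ w ∈ W, M w := Finset.single_le_sum (fun w _ => hM0 w) hw
    refine (abs_max_sub_max_le_max _ _ _ _).trans ?_
    rw [sub_self, abs_zero]
    have hpos : 0 ≤ 2 / η * ∑ w ∈ W, M w * dist x y :=
      mul_nonneg (by positivity) (Finset.sum_nonneg fun w _ => mul_nonneg (hM0 w) dist_nonneg)
    have hpos' : 0 ≤ (2 / η * ∑ w ∈ W, M w) * dist x y := by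
      rw [mul_assoc, Finset.sum_mul]; exact hpos
    refine max_le hpos' ((abs_min_sub_min_le_max _ _ _ _).trans ?_)
    rw [sub_self, abs_zero]
    refine max_le hpos' ?_
    rw [sub_sub_sub_cancel_right, ← mul_sub, abs_mul, abs_of_pos (by positivity)]
    have h1 := abs_norm_sub_norm_le (fderiv ℝ (G w) (proj N x)) (fderiv ℝ (G w) (proj N y))
    have h2 := hM w _ (hpr x hx) _ (hpr y hy)
    have h3 : M w * ‖proj N x - proj N y‖ ≤ (∑ w ∈ W, M w) * dist x y :=
      mul_le_mul hW (norm_proj_sub x y) (norm_nonneg _) ((hM0 w).trans hW)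
    calc 2 / η * |‖fderiv ℝ (G w) (proj N x)‖ - ‖fderiv ℝ (G w) (proj N y)‖|
        ≤ 2 / η * ((∑ w ∈ W, M w) * dist x y) :=
          mul_le_mul_of_nonneg_left (h1.trans (h2.trans h3)) (by positivity)
      _ = _ := by ring
  · intro w x hx
    have h1 : LipOn C (fun x => G w (proj N x)) (box r) := fun y _ z _ => by
      have h2 := sm_lip φ {w} (fun _ => 1) F hFc (L := C)
        (fun u v => by simpa using hFl w u v) (proj N y) (proj N z)
      simp only [Finset.sum_singleton, one_mul] at h2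
      exact h2.trans (mul_le_mul_of_nonneg_left (norm_proj_sub y z) hC.le)
    exact h1.lipAt hx
  · intro w x hx hχ θ hθ
    have hD : ‖fderiv ℝ (G w) (proj N x)‖ < η := by
      by_contra h1
      rw [not_lt] at h1
      have h2 : 1 ≤ 2 / η * ‖fderiv ℝ (G w) (proj N x)‖ - 1 := by
        have : 2 / η * η ≤ 2 / η * ‖fderiv ℝ (G w) (proj N x)‖ :=
          mul_le_mul_of_nonneg_left h1 (by positivity)
        rw [div_mul_cancel₀ _ hη.ne'] at this
        linarith
      simp only at hχ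
      rw [min_eq_left h2, max_eq_right zero_le_one] at hχ
      exact lt_irrefl _ hχ
    have h1 := ((hGd w (proj N x)).hasFDerivAt.isLittleO).def hθ
    have h2 : Tendsto (proj N) (𝓝[box r] x) (𝓝 (proj N x)) := by
      have : LipschitzWith 1 (proj N) := LipschitzWith.of_dist_le_mul fun y z => by
        rw [NNReal.coe_one, one_mul, dist_eq_norm]
        exact norm_proj_sub y z
      exact this.continuous.continuousAt.tendsto.mono_left nhdsWithin_le_nhds
    filter_upwards [h2.eventually h1] with y hy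
    rw [Real.norm_eq_abs] at hy
    have h3 : |fderiv ℝ (G w) (proj N x) (proj N y - proj N x)| ≤ η * ‖proj N y - proj N x‖ := by
      rw [← Real.norm_eq_abs]
      exact (ContinuousLinearMap.le_opNorm _ _).trans
        (mul_le_mul_of_nonneg_right hD.le (norm_nonneg _))
    have h4 : |G w (proj N y) - G w (proj N x)| ≤ (η + θ) * ‖proj N y - proj N x‖ := by
      rw [add_mul]
      rw [abs_le] at hy h3 ⊢
      constructor <;> linarith [hy.1, hy.2, h3.1, h3.2]
    exact h4.trans (mul_le_mul_of_nonneg_left (norm_proj_sub y x) (by positivity))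
  · intro x hx
    have h1 := overlap G W hN₁ (c := η / 4) (a := η / 2) (by positivity) (by positivity) (by linarith)
      (proj N x) (fun A hA hcard s hs z' => by
        refine sm_lip φ A s F hFc (L := η / 4 * √(A.card : ℝ)) (fun u v => ?_) z' (proj N x)
        refine (hsum A hcard s hs _ _).trans (mul_le_mul_of_nonneg_left (dist_ext0 _ _) (by positivity)))
      (fun w _ => hGd w _)
    refine le_trans (Finset.card_le_card fun w hw => ?_) h1.le
    rw [Finset.mem_filter] at hw ⊢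
    refine ⟨hw.1, ?_⟩
    by_contra h2
    rw [not_lt] at h2
    apply hw.2
    refine max_eq_left ((min_le_right _ _).trans ?_)
    have : 2 / η * ‖fderiv ℝ (G w) (proj N x)‖ ≤ 2 / η * (η / 2) :=
      mul_le_mul_of_nonneg_left h2 (by positivity)
    have e : 2 / η * (η / 2) = 1 := by field_simp
    linarith

end Pool.Agent.V8H99.FC0
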