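import Pool.Agent.V8H99.FC0.Stage

set_option autoImplicit false

/-!
One step of the construction.
-/

namespace Pool.Agent.V8H99.FC0

open Set Filter Topology
open Pool.Agent.TH326.C0 (c0 mk mk_apply tendsto_zero abs_sub_le dist_le norm_le abs_le_norm)

variable {r : ℕ → ℝ} {C : ℝ} {μ : ℕ → c0 →₀ ℝ} {f : ℕ → c0 → ℝ}

lemma infinite_of_ultra {U : Ultrafilter ℕ} (hU : (U : Filter ℕ) ≤ atTop) {p : ℕ → Prop}
    (h : ∀ᶠ n in (U : Filter ℕ), p n) : {n | p n}.Infinite :=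
  Nat.frequently_atTop_iff_infinite.1 (h.frequently.filter_mono hU)

/-- sums of Lipschitz functions -/
lemma lipOn_sum {S : Set c0} (W : Finset ℕ) {M : ℝ} {k : ℕ → c0 → ℝ} (s : ℕ → ℝ)
    (hs : ∀ i, s i = 1 ∨ s i = -1) (hk : ∀ w ∈ W, LipOn M (k w) S) :
    LipOn (W.card * M) (fun x => ∑ w ∈ W, s w * k w x) S := by
  intro x hx y hy
  rw [← Finset.sum_sub_distrib]
  refine (Finset.abs_sum_le_sum_abs _ _).trans ?_
  have h1 : ∀ w ∈ W, |s w * k w x - s w * k w y| ≤ M * dist x y := fun w hw => by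
    rw [← mul_sub, abs_mul]
    have : |s w| = 1 := by rcases hs w with h | h <;> rw [h] <;> simp
    rw [this, one_mul]
    exact hk w hw x hx y hy
  refine (Finset.sum_le_sum h1).trans ?_
  rw [Finset.sum_const, nsmul_eq_mul, mul_assoc]

/-- sums of functions with bounded overlap -/
lemma abs_sum_le (W : Finset ℕ) {N₁ : ℕ} {k : ℕ → ℝ} (s : ℕ → ℝ)
    (hs : ∀ i, s i = 1 ∨ s i = -1) (hk0 : ∀ w, 0 ≤ k w) (hk1 : ∀ w, k w ≤ 1)
    (h : (W.filter fun w => k w ≠ 0).card ≤ N₁) : |∑ w ∈ W, s w * k w| ≤ N₁ := by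
  have e : ∑ w ∈ W, s w * k w = ∑ w ∈ W.filter fun w => k w ≠ 0, s w * k w := by
    rw [Finset.sum_filter]
    refine Finset.sum_congr rfl fun w _ => ?_
    by_cases hw : k w = 0
    · simp [hw]
    · rw [if_pos hw]
  rw [e]
  refine (Finset.abs_sum_le_sum_abs _ _).trans ?_
  have h1 : ∀ w ∈ W.filter fun w => k w ≠ 0, |s w * k w| ≤ 1 := fun w _ => by
    rw [abs_mul]
    have : |s w| = 1 := by rcases hs w with h | h <;> rw [h] <;> simp
    rw [this, one_mul, abs_of_nonneg (hk0 w)]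
    exact hk1 w
  refine (Finset.sum_le_sum h1).trans ?_
  rw [Finset.sum_const, nsmul_eq_mul, mul_one]
  exact_mod_cast h

/-- **one step** -/
theorem Hyp.step (h : Hyp r C μ f) (U : Ultrafilter ℕ) (hU : (U : Filter ℕ) ≤ atTop) {ψ : c0 → ℝ}
    {Λ c₁ : ℝ} (hψ0 : ∀ x ∈ box r, 0 ≤ ψ x) (hψ1 : ∀ x ∈ box r, ψ x ≤ 1) (hΛ : 0 ≤ Λ)
    (hψ : LipOn Λ ψ (box r)) (hm : ∀ᶠ n in (U : Filter ℕ), c₁ ≤ pr (fun x => f n x * ψ x) (μ n))
    {η ε κ : ℝ} (hη : 0 < η) (hε : 0 < ε) (hκ : 0 < κ) (n₀ : ℕ) :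
    ∃ (n : ℕ) (g χ : c0 → ℝ) (Λ' : ℝ), n₀ ≤ n ∧ (∀ x ∈ box r, |g x| ≤ κ) ∧
      c₁ - ε ≤ pr (fun x => g x * ψ x) (μ n) ∧ (∀ x ∈ box r, 0 ≤ χ x) ∧ (∀ x ∈ box r, χ x ≤ 1) ∧
      0 ≤ Λ' ∧ LipOn Λ' χ (box r) ∧ (∀ x ∈ box r, lipAt (box r) g x C) ∧
      (∀ x ∈ box r, χ x < 1 → lipAt (box r) g x η) ∧
      ∀ᶠ m in (U : Filter ℕ), c₁ - ε ≤ pr (fun x => f m x * (ψ x * (1 - χ x))) (μ m) := by
  have hC := h.Cpos
  obtain ⟨N₁, hN₁, hsum⟩ := h.sums (η / 4) (by positivity)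
  set B : ℝ := C * (C * N₁ + 1) with hB
  have hB0 : 0 < B := by rw [hB]; positivity
  obtain ⟨L, hL⟩ := exists_nat_gt (B / ε)
  rw [div_lt_iff₀ hε] at hL
  have hL0 : 0 < L := by
    rcases Nat.eq_zero_or_pos L with h0 | h0
    · rw [h0] at hL; simp at hL; linarith
    · exact h0
  have hT : ∀ᶠ n in (U : Filter ℕ), n₀ ≤ n ∧ c₁ ≤ pr (fun x => f n x * ψ x) (μ n) ∧
      ∀ x ∈ box r, |f n x| ≤ κ / 2 := by
    filter_upwards [hm, hU (eventually_ge_atTop n₀), hU (h.unif (κ := κ / 2) (by linarith))]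
      with n h1 h2 h3
    exact ⟨h2, h1, h3⟩
  obtain ⟨W, hWT, hWL⟩ := (infinite_of_ultra hU hT).exists_subset_card_eq L
  set m₀ := ∑ w ∈ W, mass (μ w) with hm₀
  have hm₀0 : 0 ≤ m₀ := Finset.sum_nonneg fun w _ => mass_nonneg _
  set κ' := min (κ / 2) (ε / (1 + m₀)) with hκ'
  have hκ'0 : 0 < κ' := lt_min (by linarith) (by positivity)
  obtain ⟨g, χ, M, hM, hgf, hχ0, hχ1, hχM, hgC, hgη, hover⟩ := h.approx hη hκ'0 hN₁ hsum W
  -- the choice of the member of the window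
  have key : ∀ᶠ m in (U : Filter ℕ), ∃ w ∈ (W : Set ℕ),
      c₁ - ε ≤ pr (fun x => f m x * (ψ x * (1 - χ w x))) (μ m) := by
    set ΛΘ : ℝ := Λ * N₁ + 1 * (W.card * M) with hΛΘ
    have hΛΘ0 : 0 ≤ ΛΘ := by rw [hΛΘ]; positivity
    filter_upwards [hm, hU (h.unif (κ := 1 / (1 + ΛΘ)) (by positivity))] with m h1 h2
    by_contra hcon
    push Not at hcon
    obtain ⟨s, hs, hs1⟩ := exists_signs W fun w => pr (fun x => f m x * (ψ x * χ w x)) (μ m)
    have h3 : LipOn ΛΘ (fun x => ψ x * ∑ w ∈ W, s w * χ w x) (box r) :=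
      lipOn_mul hψ (lipOn_sum W s hs hχM) (fun x hx => by
        rw [abs_of_nonneg (hψ0 x hx)]; exact hψ1 x hx)
        fun x hx => abs_sum_le W s hs (fun w => hχ0 w x hx) (fun w => hχ1 w x hx) (hover x hx)
    have h3' : ∀ x ∈ box r, |ψ x * ∑ w ∈ W, s w * χ w x| ≤ N₁ := fun x hx => by
      rw [abs_mul, abs_of_nonneg (hψ0 x hx)]
      calc ψ x * |∑ w ∈ W, s w * χ w x| ≤ 1 * N₁ :=
            mul_le_mul (hψ1 x hx) (abs_sum_le W s hs (fun w => hχ0 w x hx) (fun w => hχ1 w x hx)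
              (hover x hx)) (abs_nonneg _) zero_le_one
        _ = N₁ := one_mul _
    have h4 : LipOn (C * N₁ + 1 / (1 + ΛΘ) * ΛΘ) (fun x => f m x * (ψ x * ∑ w ∈ W, s w * χ w x))
        (box r) := lipOn_mul (fun x _ y _ => h.lip m x y) h3 h2 h3'
    have h5 : C * N₁ + 1 / (1 + ΛΘ) * ΛΘ ≤ C * N₁ + 1 := by
      have : 1 / (1 + ΛΘ) * ΛΘ ≤ 1 := by
        rw [one_div, inv_mul_le_iff₀ (by positivity)]
        linarith
      linarith
    have h6 : |pr (fun x => f m x * (ψ x * ∑ w ∈ W, s w * χ w x)) (μ m)| ≤ B := by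
      refine h.pr_le (by positivity) (fun x hx y hy => ?_) m
      exact (h4 x hx y hy).trans (mul_le_mul_of_nonneg_right h5 dist_nonneg)
    have h7 : pr (fun x => f m x * (ψ x * ∑ w ∈ W, s w * χ w x)) (μ m) =
        ∑ w ∈ W, |pr (fun x => f m x * (ψ x * χ w x)) (μ m)| := by
      rw [hs1]
      have : ∀ w ∈ W, s w * pr (fun x => f m x * (ψ x * χ w x)) (μ m) =
          pr (fun x => s w * (f m x * (ψ x * χ w x))) (μ m) := fun w _ => (pr_smul _ _ _).symm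
      rw [Finset.sum_congr rfl this, ← pr_sum]
      congr 1
      funext x
      rw [Finset.mul_sum, Finset.mul_sum]
      exact Finset.sum_congr rfl fun w _ => by ring
    have h8 : ∀ w ∈ W, ε ≤ |pr (fun x => f m x * (ψ x * χ w x)) (μ m)| := fun w hw => by
      have h9 := hcon w (Finset.mem_coe.2 hw)
      have h10 : pr (fun x => f m x * (ψ x * (1 - χ w x))) (μ m) =
          pr (fun x => f m x * ψ x) (μ m) - pr (fun x => f m x * (ψ x * χ w x)) (μ m) := by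
        rw [← pr_sub]
        congr 1
        funext x
        ring
      rw [h10] at h9
      exact (by linarith : ε ≤ pr (fun x => f m x * (ψ x * χ w x)) (μ m)).trans (le_abs_self _)
    have h11 := Finset.sum_le_sum h8
    rw [Finset.sum_const, nsmul_eq_mul, hWL, ← h7] at h11
    linarith [(le_abs_self _).trans h6]
  obtain ⟨w, hw, hwm⟩ := (Ultrafilter.eventually_exists_mem_iff W.finite_toSet).1 key
  have hw' : w ∈ W := Finset.mem_coe.1 hw
  obtain ⟨hw1, hw2, hw3⟩ := hWT hw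
  refine ⟨w, g w, χ w, M, hw1, fun x hx => ?_, ?_, hχ0 w, hχ1 w, hM, hχM w hw', hgC w, hgη w, hwm⟩
  · have h1 := hgf w x hx
    have h2 := hw3 x hx
    have h3 : κ' ≤ κ / 2 := min_le_left _ _
    rw [abs_le] at h1 h2 ⊢
    constructor <;> linarith [h1.1, h1.2, h2.1, h2.2]
  · have h1 : |pr (fun x => f w x * ψ x - g w x * ψ x) (μ w)| ≤ κ' * mass (μ w) := by
      refine abs_pr_le fun x hx => ?_
      have hx' := h.supp w x hx
      rw [← sub_mul, abs_mul, abs_sub_comm, abs_of_nonneg (hψ0 x hx')]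
      calc |g w x - f w x| * ψ x ≤ κ' * 1 :=
            mul_le_mul (hgf w x hx') (hψ1 x hx') (hψ0 x hx') hκ'0.le
        _ = κ' := mul_one _
    have h2 : κ' * mass (μ w) ≤ ε := by
      have h3 : mass (μ w) ≤ m₀ := Finset.single_le_sum (f := fun w => mass (μ w))
        (fun w _ => mass_nonneg _) hw'
      calc κ' * mass (μ w) ≤ ε / (1 + m₀) * (1 + m₀) :=
            mul_le_mul (min_le_right _ _) (by linarith) (mass_nonneg _) (by positivity)
        _ = ε := by field_simp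
    rw [pr_sub, abs_le] at h1
    linarith [h1.2]

end Pool.Agent.V8H99.FC0
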